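import Pool.Agent.H622R2.Lba.Defs
import Pool.Agent.H622R2.Exp.Base
import Pool.Agent.H620R2.GaugeX.Base
import Pool.Agent.H620R2.Gauge.Cover

/-!
# The objects of the proof
-/

namespace Pool.Agent.H622R2.Lba

open Pool.Agent.NPC Pool.Agent.H620R2.Gauge Pool.Agent.H622R2.Exp Finset H568R2

/-- the test language -/
def testK (K : ℕ) (A : Oracle) : Set (List Bool) :=
  {x | A (x ++ List.replicate (K * (x.length + 1)) false) = true}

/-- The event: the automaton decides the test language for the inputs of length `n`. -/
def EvL {Q Γ : Type} (M : LBA Q Γ) (K n N : ℕ) (v : Fin N → Bool) : Prop :=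
  ∀ x : List Bool, x.length = n →
    (orc N v (x ++ List.replicate (K * (n + 1)) false) = true ↔ M.Acc (orc N v) x)

/-- the code string for the machine number `e` and the input `x`, with the key `u`, `ds` (`u` is a
number below `2 ^ b₀`, `ds` a list of numbers below `2 ^ c`, one for every bit of `x`) -/
def cdl (e b₀ c pad pad₀ u : ℕ) (ds : List ℕ) (x : List Bool) : List Bool :=
  (List.replicate e true ++ false :: (bitsOf b₀ u ++ List.replicate pad₀ false)) ++
    (List.zipWith (fun b d => b :: (bitsOf c d ++ List.replicate pad false)) x ds).flatten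

/-- the code string with a key -/
def cdk (e b₀ c pad pad₀ : ℕ) (x : List Bool)
    (κ : Fin (2 ^ b₀) × (Fin x.length → Fin (2 ^ c))) : List Bool :=
  cdl e b₀ c pad pad₀ κ.1 (List.ofFn fun i => (κ.2 i : ℕ)) x

/-- all code strings for the machine number `e` and the input `x` -/
def codes (e b₀ c pad pad₀ : ℕ) (x : List Bool) : Finset (List Bool) :=
  Finset.univ.image (cdk e b₀ c pad pad₀ x)

end Pool.Agent.H622R2.Lba
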