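import Pool.Agent.H622R2.Lba.Base

/-!
# The test language
-/

namespace Pool.Agent.H622R2.Lba

open Pool.Agent.NPC Pool.Agent.H620R2.Gauge Pool.Agent.H622R2.Exp Finset H568R2

/-- the test language: the input `1 ^ K 0 x` stands for the question `x 0 ^ (K (|x| + 1))` -/
def testU (A : Oracle) : Set (List Bool) :=
  {y | ∃ (K : ℕ) (x : List Bool), y = List.replicate K true ++ false :: x ∧
    A (x ++ List.replicate (K * (x.length + 1)) false) = true}

/-- The event: the automaton decides the test language for the inputs `1 ^ K 0 x`, `|x| = n`. -/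
def EvU {Q Γ : Type} (M : LBA Q Γ) (K n N : ℕ) (v : Fin N → Bool) : Prop :=
  ∀ x : List Bool, x.length = n →
    (orc N v (x ++ List.replicate (K * (n + 1)) false) = true ↔
      M.Acc (orc N v) (List.replicate K true ++ false :: x))

end Pool.Agent.H622R2.Lba
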