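import Pool.Agent.H622R2.Lba.Base
import Pool.Agent.H620R2.Gauge.S

/-!
# Lengths, number and disjointness of the code strings
-/

namespace Pool.Agent.H622R2.Lba

open Pool.Agent.NPC Pool.Agent.H620R2.Gauge Pool.Agent.H622R2.Exp Finset H568R2

namespace CDI

/-- the blocks of a code string -/
def flat (c pad : ℕ) (x : List Bool) (ds : List ℕ) : List Bool :=
  (List.zipWith (fun b d => b :: (bitsOf c d ++ List.replicate pad false)) x ds).flatten

theorem flat_cons (c pad : ℕ) (b : Bool) (x : List Bool) (d : ℕ) (ds : List ℕ) :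
    flat c pad (b :: x) (d :: ds) =
      (b :: (bitsOf c d ++ List.replicate pad false)) ++ flat c pad x ds := by
  simp [flat]

theorem length_flat (c pad : ℕ) : ∀ (x : List Bool) (ds : List ℕ), ds.length = x.length →
    (flat c pad x ds).length = x.length * (1 + c + pad)
  | [], [], _ => by simp [flat]
  | [], _ :: _, h => by simp at h
  | _ :: _, [], h => by simp at h
  | b :: x, d :: ds, h => by
      rw [flat_cons, List.length_append, length_flat c pad x ds (by simpa using h)]
      simp only [List.length_cons, List.length_append, length_bitsOf, List.length_replicate]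
      ring

theorem flat_inj (c pad : ℕ) : ∀ (x x' : List Bool) (ds ds' : List ℕ), ds.length = x.length →
    ds'.length = x'.length → x.length = x'.length → flat c pad x ds = flat c pad x' ds' →
    x = x' ∧ ds.map (bitsOf c) = ds'.map (bitsOf c)
  | [], [], [], [], _, _, _, _ => by simp
  | [], [], [], _ :: _, _, h, _, _ => by simp at h
  | [], [], _ :: _, _, h, _, _, _ => by simp at h
  | [], _ :: _, _, _, _, _, h, _ => by simp at h
  | _ :: _, [], _, _, _, _, h, _ => by simp at h
  | _ :: _, _ :: _, [], _, h, _, _, _ => by simp at h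
  | _ :: _, _ :: _, _ :: _, [], _, h, _, _ => by simp at h
  | b :: x, b' :: x', d :: ds, d' :: ds', h1, h2, h3, h => by
      rw [flat_cons, flat_cons] at h
      have h4 := List.append_inj h (by simp [length_bitsOf])
      have h5 := flat_inj c pad x x' ds ds' (by simpa using h1) (by simpa using h2)
        (by simpa using h3) h4.2
      have h6 := h4.1
      rw [List.cons.injEq] at h6
      have h7 := (List.append_inj h6.2 (by simp [length_bitsOf])).1
      exact ⟨by rw [h6.1, h5.1], by simp [h7, h5.2]⟩

theorem ones_inj (r r' : List Bool) : ∀ (e e' : ℕ),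
    List.replicate e true ++ false :: r = List.replicate e' true ++ false :: r' → e = e' ∧ r = r'
  | 0, 0, h => by simpa using h
  | 0, e' + 1, h => by simp [List.replicate_succ] at h
  | e + 1, 0, h => by simp [List.replicate_succ] at h
  | e + 1, e' + 1, h => by
      rw [List.replicate_succ, List.replicate_succ, List.cons_append, List.cons_append,
        List.cons.injEq] at h
      have := ones_inj r r' e e' h.2
      exact ⟨by rw [this.1], this.2⟩

theorem cdl_eq (e b₀ c pad pad₀ u : ℕ) (ds : List ℕ) (x : List Bool) :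
    cdl e b₀ c pad pad₀ u ds x = List.replicate e true ++ false ::
      (bitsOf b₀ u ++ List.replicate pad₀ false ++ flat c pad x ds) := by
  simp [cdl, flat]

theorem length_cdl (e b₀ c pad pad₀ u : ℕ) (ds : List ℕ) (x : List Bool)
    (h : ds.length = x.length) :
    (cdl e b₀ c pad pad₀ u ds x).length = e + 1 + b₀ + pad₀ + x.length * (1 + c + pad) := by
  rw [cdl_eq]
  simp only [List.length_append, List.length_replicate, List.length_cons, length_bitsOf,
    length_flat c pad x ds h]
  ring

theorem cdk_injective (e b₀ c pad pad₀ : ℕ) (x : List Bool) :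
    Function.Injective (cdk e b₀ c pad pad₀ x) := by
  rintro ⟨u, ds⟩ ⟨u', ds'⟩ h
  rw [cdk, cdk, cdl_eq, cdl_eq] at h
  have h1 := (ones_inj _ _ _ _ h).2
  have h2 := List.append_inj h1 (by simp [length_bitsOf])
  have h3 := (List.append_inj h2.1 (by simp [length_bitsOf])).1
  have h4 := (flat_inj c pad x x _ _ (by simp) (by simp) rfl h2.2).2
  have h5 : u = u' := Fin.ext (bitsOf_inj u.2 u'.2 h3)
  have h6 : ds = ds' := by
    funext i
    rw [List.map_ofFn, List.map_ofFn] at h4
    have h7 := congrFun (List.ofFn_injective h4) i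
    exact Fin.ext (bitsOf_inj (ds i).2 (ds' i).2 h7)
  rw [h5, h6]

end CDI

open CDI

theorem length_of_codes {e b₀ c pad pad₀ : ℕ} {x y : List Bool}
    (h : y ∈ codes e b₀ c pad pad₀ x) :
    y.length = e + 1 + b₀ + pad₀ + x.length * (1 + c + pad) := by
  rw [codes, Finset.mem_image] at h
  obtain ⟨κ, _, rfl⟩ := h
  rw [cdk, length_cdl _ _ _ _ _ _ _ _ (by simp)]

theorem card_codes (e b₀ c pad pad₀ : ℕ) (x : List Bool) :
    (codes e b₀ c pad pad₀ x).card = 2 ^ (b₀ + c * x.length) := by
  rw [codes, Finset.card_image_of_injective _ (cdk_injective e b₀ c pad pad₀ x), Finset.card_univ,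
    Fintype.card_prod, Fintype.card_fin, Fintype.card_pi]
  simp only [Fintype.card_fin, Finset.prod_const, Finset.card_univ]
  rw [← pow_mul, pow_add]

theorem codes_disj (b₀ c pad pad₀ : ℕ → ℕ) (e : ℕ) (x : List Bool) (e' : ℕ) (x' : List Bool)
    (y : List Bool) (h : y ∈ codes e (b₀ e) (c e) (pad e) (pad₀ e) x)
    (h' : y ∈ codes e' (b₀ e') (c e') (pad e') (pad₀ e') x') : e = e' ∧ x = x' := by
  have hl := length_of_codes h
  have hl' := length_of_codes h'
  rw [codes, Finset.mem_image] at h h'
  obtain ⟨κ, _, hκ⟩ := h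
  obtain ⟨κ', _, hκ'⟩ := h'
  rw [cdk, cdl_eq] at hκ hκ'
  have h0 := hκ.trans hκ'.symm
  obtain ⟨he, hr⟩ := ones_inj _ _ _ _ h0
  subst he
  refine ⟨rfl, ?_⟩
  have hx : x.length = x'.length := by
    have h1 := hl.symm.trans hl'
    have h2 : x.length * (1 + c e + pad e) = x'.length * (1 + c e + pad e) := by omega
    exact Nat.eq_of_mul_eq_mul_right (by omega) h2
  have h2 := List.append_inj hr (by simp [length_bitsOf])
  exact (flat_inj _ _ x x' _ _ (by simp) (by simp) hx h2.2).1

end Pool.Agent.H622R2.Lba
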