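import Pool.Agent.H622R2.Lba.Base
import Pool.Agent.H620R2.Gauge.S

/-!
# A deterministic linear bounded automaton which computes the parity of the number of code strings
in the oracle
-/

namespace Pool.Agent.H622R2.Lba

open Pool.Agent.NPC Pool.Agent.H620R2.Gauge Pool.Agent.H622R2.Exp Finset H568R2

namespace DEC

/-- states of the decoder -/
inductive St (b₀ : ℕ) : Type
  | ask (u : Fin (2 ^ b₀)) (par : ZMod 2)
  | inc (u : Fin (2 ^ b₀)) (par : ZMod 2)
  | carry (par : ZMod 2)
  | back (par : ZMod 2)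
  | fin (par : ZMod 2)

theorem finite_St (b₀ : ℕ) : Finite (St b₀) := by
  let g : St b₀ → (Fin 5 × Fin (2 ^ b₀) × ZMod 2) := fun s =>
    match s with
    | .ask u p => (0, u, p)
    | .inc u p => (1, u, p)
    | .carry p => (2, ⟨0, Nat.two_pow_pos b₀⟩, p)
    | .back p => (3, ⟨0, Nat.two_pow_pos b₀⟩, p)
    | .fin p => (4, ⟨0, Nat.two_pow_pos b₀⟩, p)
  refine Finite.of_injective g ?_
  intro s t h
  cases s <;> cases t <;> simp_all [g]

/-- the tape alphabet -/
abbrev Gam (c : ℕ) : Type := Bool × Fin (2 ^ c)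

/-- the word of a letter -/
def wd (c pad : ℕ) (g : Gam c) : List Bool :=
  g.1 :: (bitsOf c g.2 ++ List.replicate pad false)

/-- the prefix -/
def pre (e b₀ pad₀ u : ℕ) : List Bool :=
  List.replicate e true ++ false :: (bitsOf b₀ u ++ List.replicate pad₀ false)

/-- number zero -/
def z (c : ℕ) : Fin (2 ^ c) := ⟨0, Nat.two_pow_pos c⟩

/-- the decoder -/
def dec (e b₀ c pad pad₀ : ℕ) : LBA (St b₀) (Gam c) where
  inp b := (b, z c)
  start := .ask (z b₀) 0
  acc s := match s with
    | .fin p => decide (p = 1)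
    | _ => false
  step s r := match s, r with
    | .ask _ _, _ => []
    | .inc u p, _ => if h : (u : ℕ) + 1 < 2 ^ b₀ then [(.ask ⟨u + 1, h⟩ p, none, .stay)]
        else [(.carry p, none, .right)]
    | .carry p, some g => if h : (g.2 : ℕ) + 1 < 2 ^ c
        then [(.back p, some (g.1, ⟨g.2 + 1, h⟩), .left)]
        else [(.carry p, some (g.1, z c), .right)]
    | .carry p, none => [(.fin p, none, .stay)]
    | .back p, some _ => [(.back p, none, .left)]
    | .back p, none => [(.ask (z b₀) p, none, .stay)]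
    | .fin _, _ => []
  ask s := match s with
    | .ask u p => some (pre e b₀ pad₀ u, .inc u (p + 1), .inc u p)
    | _ => none
  word := wd c pad

theorem dec_det (e b₀ c pad pad₀ : ℕ) : (dec e b₀ c pad pad₀).Det := by
  intro s r
  cases s with
  | ask u p => simp [dec]
  | inc u p =>
    simp only [dec]
    split_ifs <;> simp
  | carry p =>
    cases r with
    | none => simp [dec]
    | some g =>
      simp only [dec]
      split_ifs <;> simp
  | back p => cases r <;> simp [dec]
  | fin p => simp [dec]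

theorem next_unique {Q Γ : Type} {M : LBA Q Γ} (hM : M.Det) (A : Oracle) :
    Relator.RightUnique (M.Next A) := by
  intro c c1 c2 h1 h2
  unfold LBA.Next at h1 h2
  split at h1
  · rename_i p q₁ q₀ heq
    rw [heq] at h2
    simp only at h2
    rw [h1, h2]
  · rename_i heq
    rw [heq] at h2
    simp only at h2
    obtain ⟨a, ha, rfl⟩ := h1
    obtain ⟨b, hb, rfl⟩ := h2
    have h3 := hM c.q c.read
    have hab : a = b := by
      match hl : M.step c.q c.read with
      | [] => rw [hl] at ha; simp at ha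
      | [d] =>
        rw [hl] at ha hb
        simp only [List.mem_singleton] at ha hb
        rw [ha, hb]
      | d :: d' :: l => rw [hl] at h3; simp at h3
    rw [hab]

section run

variable (e b₀ c pad pad₀ : ℕ) (A : Oracle)

/-- reachability -/
abbrev R : Cfg (St b₀) (Gam c) → Cfg (St b₀) (Gam c) → Prop :=
  Relation.ReflTransGen ((dec e b₀ c pad pad₀).Next A)

open Classical in
/-- the answer as an element of `ZMod 2` -/
noncomputable def an (y : List Bool) : ZMod 2 := if A y = true then 1 else 0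

/-- the sum over `u` -/
noncomputable def F (t : List (Gam c)) : ZMod 2 :=
  ∑ u ∈ Finset.range (2 ^ b₀), an A (pre e b₀ pad₀ u ++ (t.map (wd c pad)).flatten)

/-- the sum over `u` and the digits of the first letters -/
noncomputable def T : List Bool → List (Gam c) → ZMod 2
  | [], t => F e b₀ c pad pad₀ A t
  | b :: r, t => ∑ d : Fin (2 ^ c), T r ((b, d) :: t)

theorem step_ask (u : Fin (2 ^ b₀)) (p : ZMod 2) (i : ℕ) (t : List (Gam c)) :
    (dec e b₀ c pad pad₀).Next A ⟨.ask u p, i, t⟩
      ⟨.inc u (p + an A (pre e b₀ pad₀ u ++ (t.map (wd c pad)).flatten)), i, t⟩ := by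
  unfold LBA.Next an
  simp only [dec, LBA.question]
  split_ifs with h
  · rfl
  · rw [add_zero]

theorem step_inc (u : Fin (2 ^ b₀)) (p : ZMod 2) (t : List (Gam c))
    (h : (u : ℕ) + 1 < 2 ^ b₀) :
    (dec e b₀ c pad pad₀).Next A ⟨.inc u p, 0, t⟩ ⟨.ask ⟨u + 1, h⟩ p, 0, t⟩ := by
  unfold LBA.Next
  simp only [dec]
  refine ⟨(.ask ⟨u + 1, h⟩ p, none, .stay), ?_, rfl⟩
  rw [dif_pos h]
  exact List.mem_singleton_self _

theorem step_inc_last (u : Fin (2 ^ b₀)) (p : ZMod 2) (t : List (Gam c))
    (h : ¬ (u : ℕ) + 1 < 2 ^ b₀) :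
    (dec e b₀ c pad pad₀).Next A ⟨.inc u p, 0, t⟩ ⟨.carry p, 1, t⟩ := by
  unfold LBA.Next
  simp only [dec]
  refine ⟨(.carry p, none, .right), ?_, ?_⟩
  · rw [dif_neg h]
    exact List.mem_singleton_self _
  · simp [move, write]

theorem step_carry (p : ZMod 2) (L t : List (Gam c)) (b : Bool) (d : Fin (2 ^ c))
    (h : (d : ℕ) + 1 < 2 ^ c) :
    (dec e b₀ c pad pad₀).Next A ⟨.carry p, L.length + 1, L ++ (b, d) :: t⟩
      ⟨.back p, L.length, L ++ (b, ⟨d + 1, h⟩) :: t⟩ := by
  unfold LBA.Next
  have h1 : (Cfg.read (⟨.carry p, L.length + 1, L ++ (b, d) :: t⟩ : Cfg (St b₀) (Gam c))) =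
      some (b, d) := by
    simp [Cfg.read]
  rw [h1]
  simp only [dec]
  refine ⟨(.back p, some (b, ⟨d + 1, h⟩), .left), ?_, ?_⟩
  · rw [dif_pos h]
    exact List.mem_singleton_self _
  · simp [move, write]

theorem step_carry_last (p : ZMod 2) (L t : List (Gam c)) (b : Bool) (d : Fin (2 ^ c))
    (h : ¬ (d : ℕ) + 1 < 2 ^ c) :
    (dec e b₀ c pad pad₀).Next A ⟨.carry p, L.length + 1, L ++ (b, d) :: t⟩
      ⟨.carry p, L.length + 2, L ++ (b, z c) :: t⟩ := by
  unfold LBA.Next
  have h1 : (Cfg.read (⟨.carry p, L.length + 1, L ++ (b, d) :: t⟩ : Cfg (St b₀) (Gam c))) =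
      some (b, d) := by
    simp [Cfg.read]
  rw [h1]
  simp only [dec]
  refine ⟨(.carry p, some (b, z c), .right), ?_, ?_⟩
  · rw [dif_neg h]
    exact List.mem_singleton_self _
  · simp [move, write]

theorem step_fin (p : ZMod 2) (t : List (Gam c)) :
    (dec e b₀ c pad pad₀).Next A ⟨.carry p, t.length + 1, t⟩ ⟨.fin p, t.length + 1, t⟩ := by
  unfold LBA.Next
  have h1 : (Cfg.read (⟨.carry p, t.length + 1, t⟩ : Cfg (St b₀) (Gam c))) = none := by
    simp [Cfg.read]
  rw [h1]
  simp only [dec]
  refine ⟨(.fin p, none, .stay), List.mem_singleton_self _, ?_⟩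
  simp [move, write]

theorem run_back (p : ZMod 2) (t : List (Gam c)) (j : ℕ) (hj : j ≤ t.length) :
    R e b₀ c pad pad₀ A ⟨.back p, j, t⟩ ⟨.ask (z b₀) p, 0, t⟩ := by
  induction j with
  | zero =>
    refine Relation.ReflTransGen.single ?_
    unfold LBA.Next
    have h1 : (Cfg.read (⟨.back p, 0, t⟩ : Cfg (St b₀) (Gam c))) = none := by
      simp [Cfg.read]
    rw [h1]
    simp only [dec]
    refine ⟨(.ask (z b₀) p, none, .stay), List.mem_singleton_self _, ?_⟩
    simp [move, write]
  | succ j ih =>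
    refine Relation.ReflTransGen.head ?_ (ih (by omega))
    unfold LBA.Next
    have h1 : (Cfg.read (⟨.back p, j + 1, t⟩ : Cfg (St b₀) (Gam c))) =
        some (t[j]'(by omega)) := by
      simp [Cfg.read]
    rw [h1]
    simp only [dec]
    refine ⟨(.back p, none, .left), List.mem_singleton_self _, ?_⟩
    simp [move, write]

theorem run_ask (p : ZMod 2) (t : List (Gam c)) (k : ℕ) (hk : k < 2 ^ b₀) :
    R e b₀ c pad pad₀ A ⟨.ask (z b₀) p, 0, t⟩
      ⟨.ask ⟨k, hk⟩ (p + ∑ u ∈ Finset.range k,
        an A (pre e b₀ pad₀ u ++ (t.map (wd c pad)).flatten)), 0, t⟩ := by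
  induction k with
  | zero =>
    rw [Finset.sum_range_zero, add_zero]
    exact Relation.ReflTransGen.refl
  | succ k ih =>
    refine ((ih (by omega)).tail (step_ask e b₀ c pad pad₀ A _ _ _ _)).tail ?_
    have h := step_inc e b₀ c pad pad₀ A ⟨k, by omega⟩ ((p + ∑ u ∈ Finset.range k,
        an A (pre e b₀ pad₀ u ++ (t.map (wd c pad)).flatten)) +
        an A (pre e b₀ pad₀ k ++ (t.map (wd c pad)).flatten)) t hk
    rw [Finset.sum_range_succ, ← add_assoc]
    exact h

theorem run_all (p : ZMod 2) (t : List (Gam c)) :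
    R e b₀ c pad pad₀ A ⟨.ask (z b₀) p, 0, t⟩ ⟨.carry (p + F e b₀ c pad pad₀ A t), 1, t⟩ := by
  obtain ⟨k, hk⟩ : ∃ k, k + 1 = 2 ^ b₀ := ⟨2 ^ b₀ - 1, Nat.sub_add_cancel Nat.one_le_two_pow⟩
  refine ((run_ask e b₀ c pad pad₀ A p t k (by omega)).tail
    (step_ask e b₀ c pad pad₀ A _ _ _ _)).tail ?_
  have h := step_inc_last e b₀ c pad pad₀ A ⟨k, by omega⟩ ((p + ∑ u ∈ Finset.range k,
        an A (pre e b₀ pad₀ u ++ (t.map (wd c pad)).flatten)) +
        an A (pre e b₀ pad₀ k ++ (t.map (wd c pad)).flatten)) t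
        (by simp only; omega)
  have hF : p + F e b₀ c pad pad₀ A t = (p + ∑ u ∈ Finset.range k,
        an A (pre e b₀ pad₀ u ++ (t.map (wd c pad)).flatten)) +
        an A (pre e b₀ pad₀ k ++ (t.map (wd c pad)).flatten) := by
    unfold F
    rw [← hk, Finset.sum_range_succ, ← add_assoc]
  rw [hF]
  exact h

theorem run_sweep (r : List Bool) : ∀ (t : List (Gam c)) (p : ZMod 2),
    R e b₀ c pad pad₀ A
      ⟨.ask (z b₀) p, 0, (r.reverse.map fun b => ((b, z c) : Gam c)) ++ t⟩
      ⟨.carry (p + T e b₀ c pad pad₀ A r t), r.length + 1,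
        (r.reverse.map fun b => ((b, z c) : Gam c)) ++ t⟩ := by
  induction r with
  | nil =>
    intro t p
    exact run_all e b₀ c pad pad₀ A p t
  | cons b r ih =>
    intro t p
    have hL : ((b :: r).reverse.map fun b => ((b, z c) : Gam c)) ++ t =
        (r.reverse.map fun b => ((b, z c) : Gam c)) ++ (b, z c) :: t := by
      simp
    rw [hL]
    set L : List (Gam c) := r.reverse.map fun b => ((b, z c) : Gam c) with hLdef
    have hlen : L.length = r.length := by simp [hLdef]
    set g : ℕ → ZMod 2 := fun i => if h : i < 2 ^ c then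
      T e b₀ c pad pad₀ A r ((b, ⟨i, h⟩) :: t) else 0 with hg
    have key : ∀ (k : ℕ) (hk : k < 2 ^ c), R e b₀ c pad pad₀ A
        ⟨.ask (z b₀) p, 0, L ++ (b, z c) :: t⟩
        ⟨.carry (p + ∑ i ∈ Finset.range (k + 1), g i), L.length + 1,
          L ++ (b, ⟨k, hk⟩) :: t⟩ := by
      intro k
      induction k with
      | zero =>
        intro hk
        have h1 := ih ((b, z c) :: t) p
        rw [← hlen] at h1
        have h2 : ∑ i ∈ Finset.range (0 + 1), g i = T e b₀ c pad pad₀ A r ((b, z c) :: t) := by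
          rw [zero_add, Finset.sum_range_one, hg]
          simp only
          rw [dif_pos hk]
          rfl
        rw [h2]
        exact h1
      | succ k ihk =>
        intro hk
        have h1 := ihk (by omega)
        have h2 := step_carry e b₀ c pad pad₀ A (p + ∑ i ∈ Finset.range (k + 1), g i) L t b
          ⟨k, by omega⟩ hk
        have h3 := run_back e b₀ c pad pad₀ A (p + ∑ i ∈ Finset.range (k + 1), g i)
          (L ++ (b, ⟨k + 1, hk⟩) :: t) L.length (by simp)
        have h4 := ih ((b, ⟨k + 1, hk⟩) :: t) (p + ∑ i ∈ Finset.range (k + 1), g i)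
        rw [← hlen] at h4
        have h5 : g (k + 1) = T e b₀ c pad pad₀ A r ((b, ⟨k + 1, hk⟩) :: t) := by
          rw [hg]
          simp only
          rw [dif_pos hk]
        rw [Finset.sum_range_succ _ (k + 1), ← add_assoc, h5]
        exact ((h1.tail h2).trans h3).trans h4
    obtain ⟨k, hk⟩ : ∃ k, k + 1 = 2 ^ c := ⟨2 ^ c - 1, Nat.sub_add_cancel Nat.one_le_two_pow⟩
    have h1 := key k (by omega)
    have h2 := step_carry_last e b₀ c pad pad₀ A (p + ∑ i ∈ Finset.range (k + 1), g i) L t b
      ⟨k, by omega⟩ (by simp only; omega)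
    have h3 : T e b₀ c pad pad₀ A (b :: r) t = ∑ i ∈ Finset.range (k + 1), g i := by
      rw [hk, Finset.sum_range]
      simp only [T]
      refine Finset.sum_congr rfl fun i _ => ?_
      rw [hg]
      simp only
      rw [dif_pos i.isLt]
    rw [h3]
    have h4 : (b :: r).length + 1 = L.length + 2 := by
      rw [hlen]
      rfl
    rw [h4]
    exact h1.tail h2

theorem run_final (x : List Bool) :
    R e b₀ c pad pad₀ A ((dec e b₀ c pad pad₀).init x)
      ⟨.fin (T e b₀ c pad pad₀ A x.reverse []), x.length + 1,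
        x.map fun b => ((b, z c) : Gam c)⟩ := by
  have h1 := run_sweep e b₀ c pad pad₀ A x.reverse [] 0
  rw [List.reverse_reverse, List.append_nil, zero_add, List.length_reverse] at h1
  have h2 := step_fin e b₀ c pad pad₀ A (T e b₀ c pad pad₀ A x.reverse [])
    (x.map fun b => ((b, z c) : Gam c))
  rw [List.length_map] at h2
  exact Relation.ReflTransGen.tail h1 h2

theorem fin_stuck (p : ZMod 2) (i : ℕ) (t : List (Gam c)) (d : Cfg (St b₀) (Gam c)) :
    ¬ (dec e b₀ c pad pad₀).Next A ⟨.fin p, i, t⟩ d := by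
  intro h
  unfold LBA.Next at h
  simp only [dec] at h
  obtain ⟨a, ha, _⟩ := h
  simp at ha

theorem fin_reach {p : ZMod 2} {i : ℕ} {t : List (Gam c)} {d : Cfg (St b₀) (Gam c)}
    (h : R e b₀ c pad pad₀ A ⟨.fin p, i, t⟩ d) : d = ⟨.fin p, i, t⟩ := by
  rcases Relation.ReflTransGen.cases_head h with h | ⟨d', h1, _⟩
  · exact h.symm
  · exact absurd h1 (fin_stuck e b₀ c pad pad₀ A p i t d')

theorem acc_iff (x : List Bool) : (dec e b₀ c pad pad₀).Acc A x ↔
    T e b₀ c pad pad₀ A x.reverse [] = 1 := by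
  have hfin := run_final e b₀ c pad pad₀ A x
  constructor
  · rintro ⟨d, hd, hacc⟩
    obtain ⟨q, i, t⟩ := d
    cases q with
    | ask u p => simp [dec] at hacc
    | inc u p => simp [dec] at hacc
    | carry p => simp [dec] at hacc
    | back p => simp [dec] at hacc
    | fin p =>
      have hp : p = 1 := by simpa [dec] using hacc
      rcases Relation.ReflTransGen.total_of_right_unique
        (next_unique (dec_det e b₀ c pad pad₀) A) hfin hd with h | h
      · have h1 := fin_reach e b₀ c pad pad₀ A h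
        simp only [Cfg.mk.injEq, St.fin.injEq] at h1
        rw [← h1.1]
        exact hp
      · have h1 := fin_reach e b₀ c pad pad₀ A h
        simp only [Cfg.mk.injEq, St.fin.injEq] at h1
        rw [h1.1]
        exact hp
  · intro h
    refine ⟨_, hfin, ?_⟩
    simp [dec, h]

end run

/-! ### the sum over the keys -/

section sum

variable {X : Type} [Fintype X]

/-- sum over the lists of length `n` -/
noncomputable def SL : ℕ → (List X → ZMod 2) → ZMod 2
  | 0, g => g []
  | n + 1, g => ∑ d : X, SL n (fun l => g (l ++ [d]))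

theorem SL_congr (n : ℕ) : ∀ {g g' : List X → ZMod 2}, (∀ l, l.length = n → g l = g' l) →
    SL n g = SL n g' := by
  induction n with
  | zero => intro g g' h; exact h [] rfl
  | succ n ih =>
    intro g g' h
    refine Finset.sum_congr rfl fun d _ => ih fun l hl => h _ ?_
    simp [hl]

theorem SL_eq (n : ℕ) : ∀ g : List X → ZMod 2, SL n g = ∑ f : Fin n → X, g (List.ofFn f) := by
  induction n with
  | zero =>
    intro g
    simp [SL]
  | succ n ih =>
    intro g
    simp only [SL]
    have h1 : ∑ f : Fin (n + 1) → X, g (List.ofFn f) =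
        ∑ p : X × (Fin n → X), g (List.ofFn p.2 ++ [p.1]) := by
      refine (Fintype.sum_equiv (Fin.snocEquiv (fun _ => X)) _ _ ?_).symm
      intro p
      rw [List.ofFn_succ']
      simp [Fin.snocEquiv, Fin.snoc_castSucc, Fin.snoc_last]
    rw [h1, Fintype.sum_prod_type]
    exact Finset.sum_congr rfl fun d _ => ih _

end sum

theorem T_eq_SL (e b₀ c pad pad₀ : ℕ) (A : Oracle) (r : List Bool) : ∀ t : List (Gam c),
    T e b₀ c pad pad₀ A r t =
      SL r.length (fun ds => F e b₀ c pad pad₀ A (List.zip r.reverse ds ++ t)) := by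
  induction r with
  | nil => intro t; simp [T, SL]
  | cons b r ih =>
    intro t
    simp only [T, SL, List.length_cons]
    refine Finset.sum_congr rfl fun d _ => ?_
    rw [ih]
    refine SL_congr _ fun l hl => ?_
    rw [List.reverse_cons, List.zip_append (by simp [hl])]
    simp

theorem F_eq (e b₀ c pad pad₀ : ℕ) (A : Oracle) (x : List Bool) (f : Fin x.length → Fin (2 ^ c)) :
    F e b₀ c pad pad₀ A (List.zip x (List.ofFn f)) =
      ∑ u : Fin (2 ^ b₀), an A (cdk e b₀ c pad pad₀ x (u, f)) := by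
  unfold F
  rw [Finset.sum_range]
  refine Finset.sum_congr rfl fun u _ => ?_
  congr 1
  unfold cdk cdl pre
  congr 2
  have h1 : (List.ofFn fun i => ((u, f).2 i : ℕ)) = (List.ofFn f).map (fun d : Fin (2 ^ c) => (d : ℕ)) := by
    rw [List.map_ofFn]
    rfl
  rw [h1, List.zipWith_map_right, List.zip, List.map_zipWith]
  rfl

theorem cdk_inj (e b₀ c pad pad₀ : ℕ) (x : List Bool) :
    Function.Injective (cdk e b₀ c pad pad₀ x) := by
  rintro ⟨u, f⟩ ⟨u', f'⟩ h
  unfold cdk cdl at h
  have h1 := List.append_inj h (by simp [length_bitsOf])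
  obtain ⟨h2, h3⟩ := h1
  have h4 := List.append_cancel_left h2
  simp only [List.cons.injEq, true_and] at h4
  have h5 := (List.append_inj h4 (by simp [length_bitsOf])).1
  have h6 := bitsOf_inj u.isLt u'.isLt h5
  have key : ∀ (y : List Bool) (l l' : List ℕ), l.length = y.length → l'.length = y.length →
      (∀ d ∈ l, d < 2 ^ c) → (∀ d ∈ l', d < 2 ^ c) →
      (List.zipWith (fun b d => b :: (bitsOf c d ++ List.replicate pad false)) y l).flatten =
      (List.zipWith (fun b d => b :: (bitsOf c d ++ List.replicate pad false)) y l').flatten →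
      l = l' := by
    intro y
    induction y with
    | nil =>
      intro l l' hl hl' _ _ _
      rw [List.length_nil] at hl hl'
      rw [List.length_eq_zero_iff.1 hl, List.length_eq_zero_iff.1 hl']
    | cons b y ih =>
      intro l l' hl hl' hd hd' hh
      match l, l' with
      | [], _ => simp at hl
      | _ :: _, [] => simp at hl'
      | d :: l, d' :: l' =>
        simp only [List.zipWith_cons_cons, List.flatten_cons] at hh
        have g1 := List.append_inj hh (by simp [length_bitsOf])
        obtain ⟨g2, g3⟩ := g1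
        simp only [List.cons.injEq, true_and] at g2
        have g4 := (List.append_inj g2 (by simp [length_bitsOf])).1
        have g5 := bitsOf_inj (hd d List.mem_cons_self) (hd' d' List.mem_cons_self) g4
        have g6 := ih l l' (by simpa using hl) (by simpa using hl')
          (fun a ha => hd a (List.mem_cons_of_mem _ ha))
          (fun a ha => hd' a (List.mem_cons_of_mem _ ha)) g3
        rw [g5, g6]
  have h7 := key x _ _ (by simp) (by simp)
    (by
      intro d hd
      rw [List.mem_ofFn] at hd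
      obtain ⟨i, rfl⟩ := hd
      exact (f i).isLt)
    (by
      intro d hd
      rw [List.mem_ofFn] at hd
      obtain ⟨i, rfl⟩ := hd
      exact (f' i).isLt) h3
  have h8 := List.ofFn_injective h7
  refine Prod.ext (Fin.ext h6) ?_
  funext i
  exact Fin.ext (congrFun h8 i)

theorem parity (e b₀ c pad pad₀ : ℕ) (A : Oracle) (x : List Bool) :
    T e b₀ c pad pad₀ A x.reverse [] =
      (((codes e b₀ c pad pad₀ x).filter (fun y => A y = true)).card : ZMod 2) := by
  rw [T_eq_SL, List.length_reverse, SL_eq, List.reverse_reverse]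
  simp only [List.append_nil]
  simp only [F_eq]
  unfold codes
  rw [Finset.filter_image, Finset.card_image_of_injective _ (cdk_inj e b₀ c pad pad₀ x),
    Finset.card_filter]
  push_cast
  rw [Fintype.sum_prod_type, Finset.sum_comm]
  refine Finset.sum_congr rfl fun u _ => Finset.sum_congr rfl fun f _ => ?_
  unfold an
  split_ifs <;> simp

end DEC

theorem exists_decoder (e b₀ c pad pad₀ : ℕ) :
    ∃ (Q Γ : Type) (_ : Fintype Q) (_ : Fintype Γ) (M : LBA Q Γ), M.Det ∧
      ∀ (A : Oracle) (x : List Bool), (M.Acc A x ↔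
        Odd ((codes e b₀ c pad pad₀ x).filter (fun y => A y = true)).card) := by
  have := DEC.finite_St b₀
  refine ⟨DEC.St b₀, DEC.Gam c, Fintype.ofFinite _, inferInstance, DEC.dec e b₀ c pad pad₀,
    DEC.dec_det e b₀ c pad pad₀, fun A x => ?_⟩
  rw [DEC.acc_iff, DEC.parity]
  exact ZMod.natCast_eq_one_iff_odd

end Pool.Agent.H622R2.Lba
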