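import Pool.Agent.H622R2.Exp.Defs

/-!
# Linear bounded automata with an oracle

(Continues `Pool.Agent.H620R2.Gauge.Defs` and `Pool.Agent.H622R2.Exp.Defs`.)
-/

namespace Pool.Agent.H622R2.Lba

open Pool.Agent.NPC Pool.Agent.H620R2.Gauge

/-- Head moves. -/
inductive Mv : Type
  | left
  | stay
  | right

/-- A nondeterministic linear bounded automaton with an oracle: a one-tape Turing machine with
the set `Q` of states and the tape alphabet `Γ`, whose tape consists of the `n` cells of the input
(`n` is the length of the input) between two end markers. -/
structure LBA (Q Γ : Type) : Type where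
  /-- how an input bit is written on the tape -/
  inp : Bool → Γ
  /-- the initial state -/
  start : Q
  /-- the accepting states -/
  acc : Q → Bool
  /-- the possible actions in a state, if the head reads a letter, or `none` for an end marker:
  the new state, the letter to be written (`none`: nothing is written), the head move -/
  step : Q → Option Γ → List (Q × Option Γ × Mv)
  /-- `ask q = some (p, q₁, q₀)` means that `q` is an oracle state: the automaton asks whether the
  string `p`, followed by the words of the letters on the tape, is in the oracle, and goes to the
  state `q₁` if it is and to `q₀` if it is not; `none` means that `q` is an ordinary state -/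
  ask : Q → Option (List Bool × Q × Q)
  /-- the word of a letter: its contribution to the questions -/
  word : Γ → List Bool

/-- A configuration: the state, the position of the head (`0` and `n + 1` are the end markers) and
the contents of the `n` cells. -/
structure Cfg (Q Γ : Type) : Type where
  /-- the state -/
  q : Q
  /-- the position of the head -/
  pos : ℕ
  /-- the contents of the cells `1, ..., n` -/
  tape : List Γ

variable {Q Γ : Type}

/-- The letter under the head, `none` on the end markers. -/
def Cfg.read (c : Cfg Q Γ) : Option Γ := if c.pos = 0 then none else c.tape[c.pos - 1]?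

/-- The head never leaves `0, ..., n + 1`. -/
def move (n : ℕ) : Mv → ℕ → ℕ
  | .left, i => i - 1
  | .stay, i => i
  | .right, i => min (i + 1) (n + 1)

/-- Write a letter into the cell under the head; nothing can be written on the end markers. -/
def write (t : List Γ) (i : ℕ) : Option Γ → List Γ
  | none => t
  | some g => if i = 0 then t else t.set (i - 1) g

/-- The question asked in an oracle state. -/
def LBA.question (M : LBA Q Γ) (p : List Bool) (t : List Γ) : List Bool :=
  p ++ (t.map M.word).flatten

/-- `c'` is a possible next configuration after `c`, with oracle `A`. -/
def LBA.Next (M : LBA Q Γ) (A : Oracle) (c c' : Cfg Q Γ) : Prop :=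
  match M.ask c.q with
  | some (p, q₁, q₀) =>
    c' = ⟨if A (M.question p c.tape) = true then q₁ else q₀, c.pos, c.tape⟩
  | none => ∃ a ∈ M.step c.q c.read,
    c' = ⟨a.1, move c.tape.length a.2.2 c.pos, write c.tape c.pos a.2.1⟩

/-- The initial configuration: the head is on the left end marker. -/
def LBA.init (M : LBA Q Γ) (x : List Bool) : Cfg Q Γ := ⟨M.start, 0, x.map M.inp⟩

/-- The automaton accepts `x` with oracle `A`: some computation reaches an accepting state. -/
def LBA.Acc (M : LBA Q Γ) (A : Oracle) (x : List Bool) : Prop :=
  ∃ c : Cfg Q Γ, Relation.ReflTransGen (M.Next A) (M.init x) c ∧ M.acc c.q = true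

/-- The automaton is deterministic. -/
def LBA.Det (M : LBA Q Γ) : Prop := ∀ q r, (M.step q r).length ≤ 1

/-- The language `L` is accepted by a linear bounded automaton with oracle `A` (nondeterministic
linear space relative to `A`). -/
def IsLBA (A : Oracle) (L : Set (List Bool)) : Prop :=
  ∃ (k m : ℕ) (M : LBA (Fin k) (Fin m)), ∀ x, x ∈ L ↔ M.Acc A x

/-- The language `L` is accepted by a deterministic linear bounded automaton with oracle `A`
(deterministic linear space relative to `A`). -/
def IsDLBA (A : Oracle) (L : Set (List Bool)) : Prop :=
  ∃ (k m : ℕ) (M : LBA (Fin k) (Fin m)), M.Det ∧ ∀ x, x ∈ L ↔ M.Acc A x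

end Pool.Agent.H622R2.Lba
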