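import Pool.Agent.H622R2.Lba.Base

/-! Task LAS: asymptotics. -/

namespace Pool.Agent.H622R2.Lba

open Pool.Agent.NPC Pool.Agent.H620R2.Gauge Pool.Agent.H622R2.Exp Finset H568R2
open Filter (atTop)

namespace LAS

theorem between {g : ℕ → ℕ} (hg : ∀ l, ∃ n, l < g n) {m N : ℕ} (hm : ∀ k, k ≤ m → g k ≤ N) :
    ∃ n ≥ m, g n ≤ N ∧ N < g (n + 1) := by
  classical
  have hex : ∃ n, N < g n := hg N
  have h1 := Nat.find_spec hex
  have h2 : m < Nat.find hex := by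
    by_contra hc
    push Not at hc
    have := hm _ hc
    omega
  refine ⟨Nat.find hex - 1, by omega, ?_, ?_⟩
  · have := Nat.find_min hex (m := Nat.find hex - 1) (by omega)
    omega
  · have : Nat.find hex - 1 + 1 = Nat.find hex := by omega
    rw [this]
    exact h1

end LAS

theorem asyL {f : ℕ → ℝ} (hf : ∀ ε : ℝ, 0 < ε → ∃ᶠ N : ℕ in atTop, f N ≤ (N : ℝ) ^ ε) (K : ℕ)
    (δ : ℝ) (hδ : 0 < δ) (n₀ : ℕ) :
    ∃ n ≥ n₀, ∃ N, 2 ^ (n + K * (n + 1) + 1) ≤ N ∧ (1 / 2 ^ 2 ^ n : ℝ) * 2 ^ f N ≤ δ := by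
  obtain ⟨n₁, hn₁⟩ := exists_pow_lt_of_lt_one hδ (show (1 / 2 : ℝ) < 1 by norm_num)
  set m := max n₀ (max n₁ 4) with hm
  set g : ℕ → ℕ := fun n => 2 ^ (n + K * (n + 1) + 1) with hg
  have hgm : Monotone g := by
    intro a b h
    apply Nat.pow_le_pow_right (by norm_num)
    have : K * (a + 1) ≤ K * (b + 1) := Nat.mul_le_mul_left K (by omega)
    omega
  have hgu : ∀ l, ∃ n, l < g n := fun l =>
    ⟨l, (Nat.lt_two_pow_self).trans_le (Nat.pow_le_pow_right (by norm_num) (by omega))⟩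
  have hK : (0 : ℝ) < 2 * ((K : ℝ) + 1) := by positivity
  obtain ⟨N, hN, hfN⟩ := Filter.frequently_atTop.1 (hf (1 / (2 * ((K : ℝ) + 1))) (by positivity))
    (g m)
  obtain ⟨n, hnm, hn1, hn2⟩ := LAS.between hgu (m := m) (N := N) (fun k hk => (hgm hk).trans hN)
  refine ⟨n, (le_max_left _ _).trans hnm, N, hn1, ?_⟩
  have hn4 : 4 ≤ n := ((le_max_right _ _).trans (le_max_right _ _)).trans hnm
  have hnn1 : n₁ ≤ n := ((le_max_left _ _).trans (le_max_right _ _)).trans hnm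
  have hexp : n + 1 + K * (n + 1 + 1) + 1 = (K + 1) * (n + 2) := by ring
  have hN2 : (N : ℝ) ≤ 2 ^ ((K + 1) * (n + 2)) := by
    have h1 : N < 2 ^ (n + 1 + K * (n + 1 + 1) + 1) := hn2
    rw [hexp] at h1
    exact_mod_cast h1.le
  have h1 : f N ≤ (2 : ℝ) ^ (((n : ℝ) + 2) / 2) := by
    refine hfN.trans ?_
    calc (N : ℝ) ^ (1 / (2 * ((K : ℝ) + 1)))
        ≤ ((2 : ℝ) ^ ((K + 1) * (n + 2))) ^ (1 / (2 * ((K : ℝ) + 1))) :=
          Real.rpow_le_rpow (Nat.cast_nonneg _) hN2 (by positivity)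
      _ = (2 : ℝ) ^ (((n : ℝ) + 2) / 2) := by
          rw [← Real.rpow_natCast, ← Real.rpow_mul (by norm_num)]
          congr 1
          push_cast
          field_simp
  have h2 : (2 : ℝ) ^ (((n : ℝ) + 2) / 2) ≤ ((2 ^ (n - 1) : ℕ) : ℝ) := by
    have h3 : ((2 ^ (n - 1) : ℕ) : ℝ) = (2 : ℝ) ^ (((n - 1 : ℕ) : ℝ)) := by
      rw [Real.rpow_natCast]
      push_cast
      rfl
    rw [h3]
    apply Real.rpow_le_rpow_of_exponent_le (by norm_num)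
    rw [Nat.cast_sub (by omega)]
    have : (4 : ℝ) ≤ n := by exact_mod_cast hn4
    push_cast
    linarith
  have h3 : (2 : ℝ) ^ f N ≤ 2 ^ (2 ^ (n - 1)) := by
    rw [← Real.rpow_natCast 2 (2 ^ (n - 1))]
    exact Real.rpow_le_rpow_of_exponent_le (by norm_num) (h1.trans h2)
  have h4 : (2 : ℝ) ^ 2 ^ n = 2 ^ (2 ^ (n - 1)) * 2 ^ (2 ^ (n - 1)) := by
    rw [← pow_add]
    congr 1
    have : 2 ^ n = 2 ^ (n - 1) * 2 := by
      rw [← pow_succ]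
      congr 1
      omega
    omega
  have h5 : (1 / 2 ^ 2 ^ n : ℝ) * 2 ^ f N ≤ 1 / 2 ^ (2 ^ (n - 1)) := by
    rw [h4]
    calc (1 / (2 ^ (2 ^ (n - 1)) * 2 ^ (2 ^ (n - 1))) : ℝ) * 2 ^ f N
        ≤ (1 / (2 ^ (2 ^ (n - 1)) * 2 ^ (2 ^ (n - 1))) : ℝ) * 2 ^ (2 ^ (n - 1)) :=
          mul_le_mul_of_nonneg_left h3 (by positivity)
      _ = 1 / 2 ^ (2 ^ (n - 1)) := by field_simp
  have h6 : n ≤ 2 ^ (n - 1) := by
    have := Nat.lt_two_pow_self (n := n - 1)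
    omega
  calc (1 / 2 ^ 2 ^ n : ℝ) * 2 ^ f N ≤ 1 / 2 ^ (2 ^ (n - 1)) := h5
    _ = (1 / 2 : ℝ) ^ (2 ^ (n - 1)) := by rw [div_pow, one_pow]
    _ ≤ (1 / 2 : ℝ) ^ n₁ :=
        pow_le_pow_of_le_one (by norm_num) (by norm_num) (hnn1.trans h6)
    _ ≤ δ := hn₁.le

end Pool.Agent.H622R2.Lba
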