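import Pool.Agent.H622R2.Lba.Base2
import Pool.Agent.H622R2.Ckt.EVB

/-!
# The probability that an automaton decides the test language
-/

namespace Pool.Agent.H622R2.Lba

open Pool.Agent.NPC Pool.Agent.H620R2.Gauge Pool.Agent.H622R2.Exp Finset H568R2

open Ckt.EVB in
open Classical in
theorem LEV.card_ev {Q Γ : Type} (M : LBA Q Γ) {K n N : ℕ}
    (hc : ∀ (A A' : Oracle) (x : List Bool), x.length = n →
      (∀ y : List Bool, y.length < K * (n + 1) → A y = A' y) →
      (M.Acc A (List.replicate K true ++ false :: x) ↔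
        M.Acc A' (List.replicate K true ++ false :: x)))
    (h : 2 ^ (n + K * (n + 1) + 1) ≤ N) :
    (univ.filter (fun v : Fin N → Bool => EvU M K n N v)).card ≤ 2 ^ (N - 2 ^ n) := by
  set J : Finset (Fin N) := univ.image (pos n (K * (n + 1)) N h) with hJ
  have hJc : J.card = 2 ^ n := by
    rw [hJ, card_image_of_injective _ (pos_inj n (K * (n + 1)) N h), card_univ, Fintype.card_fun,
      Fintype.card_bool, Fintype.card_fin]
  have hcard : Fintype.card ({i : Fin N // i ∉ J} → Bool) = 2 ^ (N - 2 ^ n) := by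
    rw [Fintype.card_fun, Fintype.card_bool]
    congr 1
    rw [Fintype.card_subtype_compl, Fintype.card_fin, Fintype.card_coe, hJc]
  rw [← hcard, ← card_univ]
  refine card_le_card_of_injOn (fun v i => v i.1) (fun _ _ => mem_coe.2 (mem_univ _)) ?_
  intro v hv v' hv' hvv
  rw [mem_coe, mem_filter] at hv hv'
  have hoff : ∀ i : Fin N, i ∉ J → v i = v' i := fun i hi => congrFun hvv ⟨i, hi⟩
  have hloc : ∀ x : List Bool, x.length = n →
      (M.Acc (orc N v) (List.replicate K true ++ false :: x) ↔
        M.Acc (orc N v') (List.replicate K true ++ false :: x)) := by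
    intro x hx
    apply hc _ _ _ hx
    intro y hy
    unfold orc
    split_ifs with hy'
    · apply hoff
      intro hmem
      rw [hJ, mem_image] at hmem
      obtain ⟨g, -, hg⟩ := hmem
      have h1 : idx (List.ofFn g ++ List.replicate (K * (n + 1)) false) = idx y :=
        congrArg Fin.val hg
      have h2 := congrArg List.length (idx_inj h1)
      rw [List.length_append, List.length_replicate] at h2
      omega
    · rfl
  funext i
  by_cases hi : i ∈ J
  · rw [hJ, mem_image] at hi
    obtain ⟨g, -, rfl⟩ := hi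
    have e : ∀ u : Fin N → Bool, orc N u (List.ofFn g ++ List.replicate (K * (n + 1)) false) =
        u (pos n (K * (n + 1)) N h g) := by
      intro u
      have hlt : idx (List.ofFn g ++ List.replicate (K * (n + 1)) false) < N :=
        (pos n (K * (n + 1)) N h g).2
      unfold orc
      rw [dif_pos hlt]
      rfl
    have h1 := hv.2 (List.ofFn g) (List.length_ofFn)
    have h2 := hv'.2 (List.ofFn g) (List.length_ofFn)
    rw [e] at h1 h2
    rw [hloc _ List.length_ofFn] at h1
    exact Bool.eq_iff_iff.2 (h1.trans h2.symm)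
  · exact hoff i hi

open Classical in
theorem evU_bound {Q Γ : Type} (M : LBA Q Γ) {K n N : ℕ}
    (hc : ∀ (A A' : Oracle) (x : List Bool), x.length = n →
      (∀ y : List Bool, y.length < K * (n + 1) → A y = A' y) →
      (M.Acc A (List.replicate K true ++ false :: x) ↔
        M.Acc A' (List.replicate K true ++ false :: x)))
    (hN : 2 ^ (n + K * (n + 1) + 1) ≤ N) :
    Ex unif (fun v : Fin N → Bool => if EvU M K n N v then (1 : ℝ) else 0) ≤
      1 / 2 ^ 2 ^ n := by
  rw [← card_of_Ex]
  have hcard := LEV.card_ev M hc hN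
  have h2n : 2 ^ n ≤ N := le_trans (Nat.pow_le_pow_right (by norm_num) (by omega)) hN
  have h3 : (2 : ℝ) ^ (N - 2 ^ n) * 2 ^ (-(N : ℝ)) = 1 / 2 ^ 2 ^ n := by
    rw [Real.rpow_neg (by norm_num), Real.rpow_natCast, pow_sub₀ _ (by norm_num) h2n]
    field_simp
  calc ((univ.filter (fun v : Fin N → Bool => EvU M K n N v)).card : ℝ) * 2 ^ (-(N : ℝ))
      ≤ (2 ^ (N - 2 ^ n) : ℝ) * 2 ^ (-(N : ℝ)) := by
        apply mul_le_mul_of_nonneg_right _ (by positivity)
        exact_mod_cast hcard
    _ = 1 / 2 ^ 2 ^ n := h3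

end Pool.Agent.H622R2.Lba
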