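import Pool.Agent.H622R2.Lba.Base

set_option autoImplicit false

/-! Task LLC: the acceptance by a linear bounded automaton depends only on the strings of linear
length in the oracle. -/

namespace Pool.Agent.H622R2.Lba

open Pool.Agent.NPC Pool.Agent.H620R2.Gauge Pool.Agent.H622R2.Exp Finset H568R2

namespace LLC

variable {Q Γ : Type}

theorem write_length (t : List Γ) (i : ℕ) (o : Option Γ) : (write t i o).length = t.length := by
  cases o with
  | none => rfl
  | some g =>
    simp only [write]
    split_ifs
    · rfl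
    · simp

theorem next_length (M : LBA Q Γ) (A : Oracle) (c c' : Cfg Q Γ) (h : M.Next A c c') :
    c'.tape.length = c.tape.length := by
  unfold LBA.Next at h
  split at h
  · rw [h]
  · obtain ⟨a, _, rfl⟩ := h
    exact write_length _ _ _

theorem next_congr (M : LBA Q Γ) (A A' : Oracle) (c c' : Cfg Q Γ)
    (hA : ∀ p q₁ q₀, M.ask c.q = some (p, q₁, q₀) →
      A (M.question p c.tape) = A' (M.question p c.tape)) (h : M.Next A c c') :
    M.Next A' c c' := by
  unfold LBA.Next at h ⊢
  rcases hM : M.ask c.q with _ | ⟨p, q₁, q₀⟩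
  · rw [hM] at h
    exact h
  · rw [hM] at h
    have h2 := hA p q₁ q₀ hM
    simp only at h ⊢
    rw [← h2]
    exact h

theorem question_length (M : LBA Q Γ) (p : List Bool) (t : List Γ) (P W : ℕ)
    (hP : p.length ≤ P) (hW : ∀ g, (M.word g).length ≤ W) :
    (M.question p t).length ≤ P + W * t.length := by
  simp only [LBA.question, List.length_append, List.length_flatten, List.map_map]
  have h1 : (List.map (List.length ∘ M.word) t).sum ≤ W * t.length := by
    induction t with
    | nil => simp
    | cons g t ih =>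
      simp only [List.map_cons, List.sum_cons, List.length_cons, Function.comp_apply]
      have := hW g
      have e : W * (t.length + 1) = W * t.length + W := by ring
      omega
  omega

theorem reach (M : LBA Q Γ) (A A' : Oracle) (x : List Bool) (P W : ℕ)
    (hP : ∀ q p q₁ q₀, M.ask q = some (p, q₁, q₀) → p.length ≤ P)
    (hW : ∀ g, (M.word g).length ≤ W)
    (hA : ∀ y : List Bool, y.length ≤ P + W * x.length → A y = A' y) (c : Cfg Q Γ)
    (h : Relation.ReflTransGen (M.Next A) (M.init x) c) :
    c.tape.length = x.length ∧ Relation.ReflTransGen (M.Next A') (M.init x) c := by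
  induction h with
  | refl => exact ⟨by simp [LBA.init], Relation.ReflTransGen.refl⟩
  | tail _ hn ih =>
    refine ⟨(next_length M A _ _ hn).trans ih.1, ih.2.tail (next_congr M A A' _ _ ?_ hn)⟩
    intro p q₁ q₀ hq
    apply hA
    rw [← ih.1]
    exact question_length M p _ P W (hP _ _ _ _ hq) hW

theorem acc_of (M : LBA Q Γ) (A A' : Oracle) (x : List Bool) (P W : ℕ)
    (hP : ∀ q p q₁ q₀, M.ask q = some (p, q₁, q₀) → p.length ≤ P)
    (hW : ∀ g, (M.word g).length ≤ W)
    (hA : ∀ y : List Bool, y.length ≤ P + W * x.length → A y = A' y) (h : M.Acc A x) :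
    M.Acc A' x := by
  obtain ⟨c, hc, ha⟩ := h
  exact ⟨c, (reach M A A' x P W hP hW hA c hc).2, ha⟩

end LLC

theorem acc_local {k m : ℕ} (M : LBA (Fin k) (Fin m)) : ∃ c : ℕ, ∀ (A A' : Oracle)
    (x : List Bool), (∀ y : List Bool, y.length ≤ c * (x.length + 1) → A y = A' y) →
    (M.Acc A x ↔ M.Acc A' x) := by
  let P : ℕ := ∑ q : Fin k, (match M.ask q with
    | some (p, _, _) => p.length
    | none => 0)
  let W : ℕ := ∑ g : Fin m, (M.word g).length
  have hP : ∀ q p q₁ q₀, M.ask q = some (p, q₁, q₀) → p.length ≤ P := by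
    intro q p q₁ q₀ hq
    have h1 := Finset.single_le_sum (f := fun q : Fin k => (match M.ask q with
      | some (p, _, _) => p.length
      | none => 0)) (fun _ _ => Nat.zero_le _) (Finset.mem_univ q)
    simp only [hq] at h1
    exact h1
  have hW : ∀ g, (M.word g).length ≤ W := fun g =>
    Finset.single_le_sum (f := fun g : Fin m => (M.word g).length) (fun _ _ => Nat.zero_le _)
      (Finset.mem_univ g)
  refine ⟨P + W, fun A A' x hA => ?_⟩
  have hA' : ∀ y : List Bool, y.length ≤ P + W * x.length → A y = A' y := by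
    intro y hy
    apply hA
    nlinarith
  exact ⟨LLC.acc_of M A A' x P W hP hW hA',
    LLC.acc_of M A' A x P W hP hW (fun y hy => (hA' y hy).symm)⟩

end Pool.Agent.H622R2.Lba
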