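import Pool.Agent.H622R2.Lba.Base2
import Pool.Agent.H622R2.Lba.LLC
import Pool.Agent.H622R2.Lba.LEV
import Pool.Agent.H622R2.Lba.LAS
import Pool.Agent.H620R2.Gauge2.Null

/-!
# The oracles with an automaton for the test language
-/

namespace Pool.Agent.H622R2.Lba

open Pool.Agent.NPC Pool.Agent.H620R2.Gauge Pool.Agent.H622R2.Exp Finset H568R2 Pool.Agent.H676
open Filter (atTop)

namespace LNU

/-- the number of a move -/
def mvN : Mv → ℕ
  | .left => 0
  | .stay => 1
  | .right => 2

theorem mvN_inj : Function.Injective mvN := by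
  intro a b h
  cases a <;> cases b <;> simp_all [mvN]

theorem countable_mv : Countable Mv := mvN_inj.countable

theorem countable_lba (k m : ℕ) : Countable (LBA (Fin k) (Fin m)) := by
  have := countable_mv
  have h : Function.Injective (fun M : LBA (Fin k) (Fin m) =>
      (M.inp, M.start, M.acc, M.step, M.ask, M.word)) := by
    intro M M' h
    cases M
    cases M'
    simp only [Prod.mk.injEq] at h
    obtain ⟨h1, h2, h3, h4, h5, h6⟩ := h
    subst h1 h2 h3 h4 h5 h6
    rfl
  exact h.countable

theorem evU_of {Q Γ : Type} {M : LBA Q Γ} {K n N : ℕ}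
    (hc : ∀ (A A' : Oracle) (x : List Bool), x.length = n →
      (∀ y : List Bool, y.length < K * (n + 1) → A y = A' y) →
      (M.Acc A (List.replicate K true ++ false :: x) ↔
        M.Acc A' (List.replicate K true ++ false :: x)))
    (hN : 2 ^ (n + K * (n + 1) + 1) ≤ N) {A : Oracle}
    (h : ∀ x, x ∈ testU A ↔ M.Acc A x) : EvU M K n N (pre N A) := by
  have hloc : ∀ y : List Bool, y.length ≤ n + K * (n + 1) → orc N (pre N A) y = A y := by
    intro y hy
    apply orc_pre
    have h1 := idx_lt y
    have h2 : 2 ^ (y.length + 1) ≤ 2 ^ (n + K * (n + 1) + 1) :=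
      Nat.pow_le_pow_right (by norm_num) (by omega)
    omega
  intro x hx
  rw [hc (orc N (pre N A)) A x hx (fun y hy => hloc y (by omega)), ← h,
    hloc _ (by rw [List.length_append, List.length_replicate, hx])]
  constructor
  · intro h1
    exact ⟨K, x, rfl, by rw [hx]; exact h1⟩
  · rintro ⟨K', x', h1, h2⟩
    have h3 : K = K' ∧ x = x' := by
      clear h2 hc hN h hloc
      induction K generalizing K' with
      | zero =>
        cases K' with
        | zero => simpa using h1
        | succ K' => simp [List.replicate_succ] at h1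
      | succ K ih =>
        cases K' with
        | zero => simp [List.replicate_succ] at h1
        | succ K' =>
          rw [List.replicate_succ, List.replicate_succ, List.cons_append, List.cons_append,
            List.cons.injEq] at h1
          obtain ⟨h3, h4⟩ := ih K' h1.2
          exact ⟨by rw [h3], h4⟩
    obtain ⟨rfl, rfl⟩ := h3
    rw [← hx]
    exact h2

theorem null_one {f : ℕ → ℝ} (hf : ∀ ε : ℝ, 0 < ε → ∃ᶠ N : ℕ in atTop, f N ≤ (N : ℝ) ^ ε)
    {k m : ℕ} (M : LBA (Fin k) (Fin m)) :
    Null f {A : Oracle | ∀ x, x ∈ testU A ↔ M.Acc A x} := by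
  classical
  obtain ⟨c, hc⟩ := acc_local M
  intro δ hδ
  obtain ⟨n, hn, N, hN, hδN⟩ := asyL hf (c + 1) δ hδ (c * (c + 3))
  have hc' : ∀ (A A' : Oracle) (x : List Bool), x.length = n →
      (∀ y : List Bool, y.length < (c + 1) * (n + 1) → A y = A' y) →
      (M.Acc A (List.replicate (c + 1) true ++ false :: x) ↔
        M.Acc A' (List.replicate (c + 1) true ++ false :: x)) := by
    intro A A' x hx h
    apply hc
    intro y hy
    apply h
    rw [List.length_append, List.length_replicate, List.length_cons, hx] at hy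
    have h1 : c * (c + 1 + (n + 1) + 1) = c * (c + 3) + c * n := by ring
    have h2 : (c + 1) * (n + 1) = c * n + c + n + 1 := by ring
    omega
  obtain ⟨S, hS, hS'⟩ := cover_of_event (EvU M (c + 1) n N)
    {A : Oracle | ∀ x, x ∈ testU A ↔ M.Acc A x}
    (fun A hA => evU_of hc' hN hA) f δ
    ((mul_le_mul_of_nonneg_right (evU_bound M hc' hN) (by positivity)).trans hδN)
  exact ⟨S, hS, hS'⟩

end LNU

theorem null_lba {f : ℕ → ℝ} (hf : ∀ ε : ℝ, 0 < ε → ∃ᶠ N : ℕ in atTop, f N ≤ (N : ℝ) ^ ε) :
    Null f {A : Oracle | IsLBA A (testU A)} := by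
  have hcount : ∀ k m : ℕ, Countable (LBA (Fin k) (Fin m)) := LNU.countable_lba
  obtain ⟨g, hg⟩ : ∃ g : ℕ → Option (Σ k : ℕ, Σ m : ℕ, LBA (Fin k) (Fin m)),
      Function.Surjective g := exists_surjective_nat _
  refine (null_iUnion (f := f) (fun i : ℕ => {A : Oracle | ∃ p ∈ g i,
    ∀ x, x ∈ testU A ↔ p.2.2.Acc A x}) fun i => ?_).mono fun A hA => ?_
  · cases hgi : g i with
    | none =>
      intro δ hδ
      refine ⟨∅, ?_, ?_⟩
      · rintro A ⟨p, hp, -⟩
        simp at hp
      · simp
    | some p =>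
      refine (LNU.null_one hf p.2.2).mono ?_
      rintro A ⟨p', hp', h⟩
      rw [Option.mem_some_iff] at hp'
      subst hp'
      exact h
  · obtain ⟨k, m, M, hM⟩ := hA
    obtain ⟨i, hi⟩ := hg (some ⟨k, m, M⟩)
    exact Set.mem_iUnion.2 ⟨i, ⟨k, m, M⟩, by rw [hi]; rfl, hM⟩

end Pool.Agent.H622R2.Lba
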