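import Pool.Agent.H622R2.Lba.Base
import Pool.Agent.H620R2.Gauge.Upper

/-!
# Task LTP: the test language is in `P` relative to the oracle
-/

namespace Pool.Agent.H622R2.Lba

open Pool.Agent.NPC Pool.Agent.H620R2.Gauge Pool.Agent.H622R2.Exp Finset H568R2

namespace TaskLTP

open Pool.Agent.H622R2

theorem poly_replicate_false {α : Type} [TEnc α] {n : α → ℕ} (hn : UPoly n) :
    Poly (fun a => List.replicate (n a) false) := by
  have h := NPC.Poly.map (F := fun (_ : α) (_ : Unit) => false) hn (NPC.Poly.const false)
  exact h.congr fun a => by simp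

theorem poly_question (K : ℕ) :
    Poly (fun x : List Bool => x ++ List.replicate (K * (x.length + 1)) false) := by
  refine Poly.append Poly.id (poly_replicate_false ?_)
  exact UPoly.mul (UPoly.const K) (UPoly.add (UPoly.length Poly.id) (UPoly.const 1))

end TaskLTP

theorem testK_isP (K : ℕ) (A : Oracle) : IsP A (testK K A) := by
  refine ⟨fun x => [A (x ++ List.replicate (K * (x.length + 1)) false)], ?_, fun x => ?_⟩
  · have h1 := IsFP.tt (A := A)
      (Q := fun x => [x ++ List.replicate (K * (x.length + 1)) false]) (H := fun y => y.2)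
      (Poly.cons (TaskLTP.poly_question K) (NPC.Poly.const [])) (Poly.snd Poly.id)
    exact h1
  · simp [testK]

end Pool.Agent.H622R2.Lba
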