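import Pool.Agent.H622R2.Lba.Base2
import Pool.Agent.H622R2.Lba.LTP

/-!
# The test language is in `P` relative to the oracle
-/

namespace Pool.Agent.H622R2.Lba

open Pool.Agent.NPC Pool.Agent.H620R2.Gauge Pool.Agent.H622R2.Exp Finset H568R2

namespace LTU

/-- one step of reading an input `1 ^ K 0 x`: was there a zero, the ones, the reverse of `x` -/
def stp (s : Bool × List Bool × List Bool) (b : Bool) : Bool × List Bool × List Bool :=
  if s.1 = true then (true, s.2.1, b :: s.2.2) else
    if b = true then (false, true :: s.2.1, s.2.2) else (true, s.2.1, s.2.2)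

theorem foldl_true (y : List Bool) : ∀ k x : List Bool,
    y.foldl stp (true, k, x) = (true, k, y.reverse ++ x) := by
  induction y with
  | nil => intro k x; rfl
  | cons b y ih =>
    intro k x
    rw [List.foldl_cons]
    change y.foldl stp (true, k, b :: x) = _
    rw [ih]
    simp

theorem foldl_ones (K : ℕ) : ∀ k x : List Bool,
    (List.replicate K true).foldl stp (false, k, x) = (false, List.replicate K true ++ k, x) := by
  induction K with
  | zero => intro k x; rfl
  | succ K ih =>
    intro k x
    rw [List.replicate_succ, List.foldl_cons]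
    change (List.replicate K true).foldl stp (false, true :: k, x) = _
    rw [ih, ← List.replicate_succ, List.replicate_succ']
    simp

theorem foldl_code (K : ℕ) (x : List Bool) :
    (List.replicate K true ++ false :: x).foldl stp (false, [], []) =
      (true, List.replicate K true, x.reverse) := by
  rw [List.foldl_append, foldl_ones, List.foldl_cons]
  change x.foldl stp (true, List.replicate K true ++ [], []) = _
  rw [foldl_true]
  simp

theorem code_or (y : List Bool) : (∃ (K : ℕ) (x : List Bool),
    y = List.replicate K true ++ false :: x) ∨ ∃ K : ℕ, y = List.replicate K true := by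
  induction y with
  | nil => exact Or.inr ⟨0, rfl⟩
  | cons b y ih =>
    cases b with
    | false => exact Or.inl ⟨0, y, rfl⟩
    | true =>
      rcases ih with ⟨K, x, rfl⟩ | ⟨K, rfl⟩
      · exact Or.inl ⟨K + 1, x, rfl⟩
      · exact Or.inr ⟨K + 1, rfl⟩

theorem len_foldl (y : List Bool) : ∀ s : Bool × List Bool × List Bool,
    (y.foldl stp s).2.1.length + (y.foldl stp s).2.2.length ≤
      y.length + (s.2.1.length + s.2.2.length) := by
  induction y with
  | nil => intro s; simp
  | cons b y ih =>
    intro s
    rw [List.foldl_cons]
    refine (ih _).trans ?_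
    unfold stp
    split_ifs <;> simp <;> omega

theorem poly_read : Poly (fun y : List Bool => y.foldl stp (false, [], [])) := by
  refine Poly.foldl (F := fun (_ : List Bool) s b => stp s b) Poly.id (NPC.Poly.const _) ?_
    (Polynomial.C 8 * Polynomial.X + Polynomial.C 20) ?_
  · unfold stp
    have hs : Poly (fun p : List Bool × (Bool × List Bool × List Bool) × Bool => p.2.1) :=
      Poly.fst (Poly.snd Poly.id)
    have hb : Poly (fun p : List Bool × (Bool × List Bool × List Bool) × Bool => p.2.2) :=
      Poly.snd (Poly.snd Poly.id)
    refine NPC.Poly.ite (NPC.Poly.decide_bool (Poly.fst hs))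
      (Poly.pair (NPC.Poly.const _) (Poly.pair (Poly.fst (Poly.snd hs))
        (Poly.cons hb (Poly.snd (Poly.snd hs)))))
      (NPC.Poly.ite (NPC.Poly.decide_bool hb)
        (Poly.pair (NPC.Poly.const _) (Poly.pair (Poly.cons (NPC.Poly.const _)
          (Poly.fst (Poly.snd hs))) (Poly.snd (Poly.snd hs))))
        (Poly.pair (NPC.Poly.const _) (Poly.snd hs)))
  · intro y k hk
    have h1 := len_foldl (y.take k) (false, [], [])
    have h2 := sz_le_length_mul ((y.take k).foldl stp (false, [], [])).2.1 3
      (fun a _ => sz_bool_le a)
    have h3 := sz_le_length_mul ((y.take k).foldl stp (false, [], [])).2.2 3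
      (fun a _ => sz_bool_le a)
    have h4 := sz_bool_le ((y.take k).foldl stp (false, [], [])).1
    have h5 := length_lt_sz y
    have h6 : (y.take k).length ≤ y.length := List.length_take_le' _ _
    generalize (y.take k).foldl stp (false, [], []) = s at h1 h2 h3 h4 ⊢
    obtain ⟨s1, s2, s3⟩ := s
    simp only [List.length_nil, Nat.add_zero] at h1
    simp only [Polynomial.eval_add, Polynomial.eval_mul, Polynomial.eval_C, Polynomial.eval_X]
    simp at h2 h3 h4 ⊢
    omega

/-- the list of the questions -/
def qs (y : List Bool) : List (List Bool) :=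
  [(y.foldl stp (false, [], [])).2.2.reverse ++
    List.replicate ((y.foldl stp (false, [], [])).2.1.length *
      ((y.foldl stp (false, [], [])).2.2.length + 1)) false]

end LTU

theorem testU_isP (A : Oracle) : IsP A (testU A) := by
  refine ⟨fun y => [(y.foldl LTU.stp (false, [], [])).1 &&
    A ((y.foldl LTU.stp (false, [], [])).2.2.reverse ++
      List.replicate ((y.foldl LTU.stp (false, [], [])).2.1.length *
        ((y.foldl LTU.stp (false, [], [])).2.2.length + 1)) false)], ?_, fun y => ?_⟩
  · have hr := LTU.poly_read
    have h1 := IsFP.tt (A := A) (Q := LTU.qs)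
      (H := fun y => [(y.1.foldl LTU.stp (false, [], [])).1 && y.2.head?.getD false]) ?_ ?_
    · exact h1
    · refine Poly.cons (Poly.append (Poly.reverse (Poly.snd (Poly.snd hr)))
        (TaskLTP.poly_replicate_false ?_)) (NPC.Poly.const [])
      exact UPoly.mul (UPoly.length (Poly.fst (Poly.snd hr)))
        (UPoly.add (UPoly.length (Poly.snd (Poly.snd hr))) (UPoly.const 1))
    · exact Poly.cons (Poly.and (Poly.fst (hr.comp (Poly.fst Poly.id)))
        (NPC.Poly.head?_getD (Poly.snd Poly.id) false)) (NPC.Poly.const [])
  · dsimp only
    rcases LTU.code_or y with ⟨K, x, rfl⟩ | ⟨K, rfl⟩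
    · rw [LTU.foldl_code]
      simp only [Bool.true_and, List.reverse_reverse, List.length_replicate, List.length_reverse,
        List.cons.injEq, and_true]
      constructor
      · rintro ⟨K', x', h1, h2⟩
        have h3 := LTU.foldl_code K x
        rw [h1, LTU.foldl_code] at h3
        simp only [Prod.mk.injEq, true_and] at h3
        have h4 : x' = x := List.reverse_injective h3.2
        have h5 : K' = K := by simpa using congrArg List.length h3.1
        rw [← h4, ← h5]
        exact h2
      · intro h
        exact ⟨K, x, rfl, h⟩
    · have h0 := LTU.foldl_ones K [] []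
      rw [h0]
      simp only [Bool.false_and, List.cons.injEq, and_true, Bool.false_eq_true, iff_false]
      rintro ⟨K', x', h1, h2⟩
      rw [h1, LTU.foldl_code] at h0
      simp at h0

end Pool.Agent.H622R2.Lba
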