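import Pool.Agent.H622R2.Lba.Base
import Pool.Agent.H622R2.Exp.G
import Pool.Agent.H620R2.GaugeX.X1
import Pool.Agent.H620R2.Gauge.A1

/-!
# Task NEL: an accepting computation of an NE machine has few questions
-/

namespace Pool.Agent.H622R2.Lba

open Pool.Agent.NPC Pool.Agent.H620R2.Gauge Pool.Agent.H622R2.Exp Finset H568R2 Pool.Agent.H676
open Filter (atTop)

theorem ne_local (M : Alg) {q : Polynomial ℕ} (hq : q ∈ Lin) : ∃ r : ℕ,
    ∀ (x : List Bool) (A : Oracle),
      (∃ w : List Bool, w.length ≤ 2 ^ q.eval x.length ∧ M.out A (pairBits w x) = some [true]) →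
      ∃ U : Finset (List Bool), U.card ≤ 2 ^ (r * (x.length + 1)) ∧
        ∀ A' : Oracle, (∀ u ∈ U, A' u = A u) →
          ∃ w : List Bool, w.length ≤ 2 ^ q.eval x.length ∧
            M.out A' (pairBits w x) = some [true] := by
  obtain ⟨c, rfl⟩ := hq
  obtain ⟨d, hd⟩ := G.comp_bound (M.p.comp (Polynomial.C 2 * Polynomial.X + Polynomial.C 1))
  refine ⟨d + d * (1 + c), ?_⟩
  rintro x A ⟨w, hw, h⟩
  obtain ⟨U, hU1, hU2⟩ := run_local M A (pairBits w x) (M.p.eval (pairBits w x).length) []
  refine ⟨U, hU1.trans ?_, fun A' hA' => ⟨w, hw, ?_⟩⟩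
  · have h1 := hd x.length (c * (x.length + 1))
    have h2 : (Polynomial.C c * (Polynomial.X + 1)).eval x.length = c * (x.length + 1) := by
      simp
    rw [h2] at hw
    have hl : (pairBits w x).length = 2 * w.length + 1 + x.length := length_pairBits w x
    rw [hl]
    calc M.p.eval (2 * w.length + 1 + x.length)
        ≤ M.p.eval (2 * (x.length + 2 ^ (c * (x.length + 1))) + 1) := eval_mono _ (by omega)
      _ = (M.p.comp (Polynomial.C 2 * Polynomial.X + Polynomial.C 1)).eval
          (x.length + 2 ^ (c * (x.length + 1))) := by simp [Polynomial.eval_comp]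
      _ ≤ 2 ^ (d + d * (x.length + 1 + c * (x.length + 1))) := h1
      _ ≤ 2 ^ ((d + d * (1 + c)) * (x.length + 1)) := by
        apply Nat.pow_le_pow_right (by norm_num)
        nlinarith
  · have h2 : M.out A' (pairBits w x) = M.out A (pairBits w x) := hU2 A' hA'
    rw [h2, h]

end Pool.Agent.H622R2.Lba
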