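import Pool.Agent.H622R2.Lba.CDI

/-!
# How many code strings are among the first `N` strings
-/

namespace Pool.Agent.H622R2.Lba

open Pool.Agent.NPC Pool.Agent.H620R2.Gauge Pool.Agent.H622R2.Exp Finset H568R2
open Filter (atTop)

namespace PAD

theorem exists_pad {ε : ℝ} (hε : 0 < ε) (b₀ c : ℕ → ℕ) : ∃ (pad pad₀ : ℕ → ℕ), ∀ e n : ℕ,
    (n + (b₀ e + c e * n) + (e + 1) + (n + 1) : ℝ) ≤
      ((e + 1 + b₀ e + pad₀ e + n * (1 + c e + pad e) : ℕ) : ℝ) * ε := by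
  refine ⟨fun e => ⌈((c e : ℝ) + 2) / ε⌉₊, fun e => ⌈((b₀ e : ℝ) + e + 2) / ε⌉₊, fun e n => ?_⟩
  have h1 := Nat.le_ceil (((c e : ℝ) + 2) / ε)
  have h2 := Nat.le_ceil (((b₀ e : ℝ) + e + 2) / ε)
  set P : ℕ := ⌈((c e : ℝ) + 2) / ε⌉₊
  set P₀ : ℕ := ⌈((b₀ e : ℝ) + e + 2) / ε⌉₊
  rw [div_le_iff₀ hε] at h1 h2
  push_cast
  have h3 : (0 : ℝ) ≤ ((e : ℝ) + 1 + b₀ e) * ε := by positivity
  have h4 : (0 : ℝ) ≤ ((n : ℝ) * (1 + c e)) * ε := by positivity
  have h5 : (n : ℝ) * ((c e : ℝ) + 2) ≤ n * (P * ε) :=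
    mul_le_mul_of_nonneg_left h1 (Nat.cast_nonneg n)
  nlinarith [h2, h3, h4, h5]

theorem sum_half (N : ℕ) : ∑ k ∈ Finset.range N, (1 / 2 : ℝ) ^ (k + 1) = 1 - (1 / 2) ^ N := by
  induction N with
  | zero => simp
  | succ N ih =>
    rw [Finset.sum_range_succ, ih]
    ring

theorem sum_half_le (N : ℕ) : ∑ k ∈ Finset.range N, (1 / 2 : ℝ) ^ (k + 1) ≤ 1 := by
  rw [sum_half]
  have : (0 : ℝ) ≤ (1 / 2) ^ N := by positivity
  linarith

open Classical in
/-- all code strings for `e` and inputs of length `n` -/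
noncomputable def lev (e b₀ c pad pad₀ n : ℕ) : Finset (List Bool) :=
  (Finset.univ : Finset (List.Vector Bool n)).biUnion (fun x => codes e b₀ c pad pad₀ x.1)

open Classical in
theorem card_lev (e b₀ c pad pad₀ n : ℕ) :
    (lev e b₀ c pad pad₀ n).card ≤ 2 ^ n * 2 ^ (b₀ + c * n) := by
  refine (Finset.card_biUnion_le).trans ?_
  refine (Finset.sum_le_card_nsmul _ _ (2 ^ (b₀ + c * n)) (fun x _ => ?_)).trans ?_
  · rw [card_codes, x.2]
  · rw [Finset.card_univ, card_vector, Fintype.card_bool, smul_eq_mul]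

open Classical in
theorem count {ε : ℝ} (hε : 0 < ε) (b₀ c pad pad₀ : ℕ → ℕ) (h : ∀ e n : ℕ,
    (n + (b₀ e + c e * n) + (e + 1) + (n + 1) : ℝ) ≤
      ((e + 1 + b₀ e + pad₀ e + n * (1 + c e + pad e) : ℕ) : ℝ) * ε) (N : ℕ) :
    (((Finset.range N).filter (fun i => str i ∈
      {y : List Bool | ∃ e x, y ∈ codes e (b₀ e) (c e) (pad e) (pad₀ e) x})).card : ℝ) ≤
      (N : ℝ) ^ ε := by
  set len : ℕ → ℕ → ℕ := fun e n => e + 1 + b₀ e + pad₀ e + n * (1 + c e + pad e) with hlen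
  set I : Finset (ℕ × ℕ) := (Finset.range N ×ˢ Finset.range N).filter
    (fun p => 2 ^ len p.1 p.2 ≤ N) with hI
  have hsub : (Finset.range N).filter (fun i => str i ∈
      {y : List Bool | ∃ e x, y ∈ codes e (b₀ e) (c e) (pad e) (pad₀ e) x}) ⊆
      (I.biUnion (fun p => lev p.1 (b₀ p.1) (c p.1) (pad p.1) (pad₀ p.1) p.2)).image idx := by
    intro i hi
    rw [Finset.mem_filter, Finset.mem_range] at hi
    obtain ⟨hiN, e, x, hx⟩ := hi
    have hl := length_of_codes hx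
    have h2 := le_idx (str i)
    rw [idx_str, hl] at h2
    have h3 : 2 ^ len e x.length ≤ N := h2.trans hiN
    have h4 : len e x.length < N := lt_of_lt_of_le Nat.lt_two_pow_self h3
    have h5 : x.length ≤ x.length * (1 + c e + pad e) := Nat.le_mul_of_pos_right _ (by omega)
    rw [Finset.mem_image]
    refine ⟨str i, ?_, idx_str i⟩
    rw [Finset.mem_biUnion]
    refine ⟨(e, x.length), ?_, ?_⟩
    · rw [hI, Finset.mem_filter, Finset.mem_product, Finset.mem_range, Finset.mem_range]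
      simp only [hlen] at h3 h4 ⊢
      exact ⟨⟨by omega, by omega⟩, h3⟩
    · rw [lev, Finset.mem_biUnion]
      exact ⟨⟨x, rfl⟩, Finset.mem_univ _, hx⟩
  have hterm : ∀ p ∈ I, (((lev p.1 (b₀ p.1) (c p.1) (pad p.1) (pad₀ p.1) p.2).card : ℕ) : ℝ) ≤
      (N : ℝ) ^ ε * ((1 / 2 : ℝ) ^ (p.1 + 1) * (1 / 2 : ℝ) ^ (p.2 + 1)) := by
    rintro ⟨e, n⟩ hp
    rw [hI, Finset.mem_filter] at hp
    have h1 : ((2 : ℝ) ^ len e n) ≤ (N : ℝ) := by exact_mod_cast hp.2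
    have h2 : ((2 : ℝ) ^ ((len e n : ℝ) * ε)) ≤ (N : ℝ) ^ ε := by
      rw [Real.rpow_mul (by norm_num), Real.rpow_natCast]
      exact Real.rpow_le_rpow (by positivity) h1 hε.le
    have h3 : (((lev e (b₀ e) (c e) (pad e) (pad₀ e) n).card : ℕ) : ℝ) ≤
        2 ^ n * 2 ^ (b₀ e + c e * n) := by
      exact_mod_cast card_lev e (b₀ e) (c e) (pad e) (pad₀ e) n
    have h4 : (2 : ℝ) ^ (n + (b₀ e + c e * n) + (e + 1) + (n + 1)) ≤
        (2 : ℝ) ^ ((len e n : ℝ) * ε) := by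
      rw [← Real.rpow_natCast 2 (n + (b₀ e + c e * n) + (e + 1) + (n + 1))]
      apply Real.rpow_le_rpow_of_exponent_le (by norm_num)
      have := h e n
      push_cast at this ⊢
      simp only [hlen]
      push_cast
      exact this
    have h5 : (2 : ℝ) ^ n * 2 ^ (b₀ e + c e * n) =
        (2 : ℝ) ^ (n + (b₀ e + c e * n) + (e + 1) + (n + 1)) *
          ((1 / 2 : ℝ) ^ (e + 1) * (1 / 2 : ℝ) ^ (n + 1)) := by
      rw [pow_add 2 (n + (b₀ e + c e * n) + (e + 1)) (n + 1),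
        pow_add 2 (n + (b₀ e + c e * n)) (e + 1), pow_add 2 n (b₀ e + c e * n),
        one_div, inv_pow, inv_pow]
      field_simp
    refine h3.trans ?_
    rw [h5]
    exact mul_le_mul_of_nonneg_right (h4.trans h2) (by positivity)
  calc (((Finset.range N).filter (fun i => str i ∈
      {y : List Bool | ∃ e x, y ∈ codes e (b₀ e) (c e) (pad e) (pad₀ e) x})).card : ℝ)
      ≤ (((I.biUnion (fun p => lev p.1 (b₀ p.1) (c p.1) (pad p.1) (pad₀ p.1) p.2)).image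
          idx).card : ℝ) := by exact_mod_cast Finset.card_le_card hsub
    _ ≤ ((∑ p ∈ I, (lev p.1 (b₀ p.1) (c p.1) (pad p.1) (pad₀ p.1) p.2).card : ℕ) : ℝ) := by
        exact_mod_cast Finset.card_image_le.trans Finset.card_biUnion_le
    _ = ∑ p ∈ I, (((lev p.1 (b₀ p.1) (c p.1) (pad p.1) (pad₀ p.1) p.2).card : ℕ) : ℝ) := by
        push_cast; rfl
    _ ≤ ∑ p ∈ I, (N : ℝ) ^ ε * ((1 / 2 : ℝ) ^ (p.1 + 1) * (1 / 2 : ℝ) ^ (p.2 + 1)) :=
        Finset.sum_le_sum hterm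
    _ ≤ ∑ p ∈ Finset.range N ×ˢ Finset.range N,
          (N : ℝ) ^ ε * ((1 / 2 : ℝ) ^ (p.1 + 1) * (1 / 2 : ℝ) ^ (p.2 + 1)) :=
        Finset.sum_le_sum_of_subset_of_nonneg (Finset.filter_subset _ _)
          (fun _ _ _ => by positivity)
    _ = (N : ℝ) ^ ε * ((∑ k ∈ Finset.range N, (1 / 2 : ℝ) ^ (k + 1)) *
          (∑ k ∈ Finset.range N, (1 / 2 : ℝ) ^ (k + 1))) := by
        rw [← Finset.mul_sum, Finset.sum_product, Finset.sum_mul_sum]
    _ ≤ (N : ℝ) ^ ε * (1 * 1) := by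
        apply mul_le_mul_of_nonneg_left _ (by positivity)
        exact mul_le_mul (sum_half_le N) (sum_half_le N)
          (Finset.sum_nonneg fun _ _ => by positivity) zero_le_one
    _ = (N : ℝ) ^ ε := by ring

end PAD

open Classical in
theorem exists_pads {f : ℕ → ℝ}
    (hf : ¬ ∀ ε : ℝ, 0 < ε → ∃ᶠ N : ℕ in atTop, f N ≤ (N : ℝ) ^ ε) (b₀ c : ℕ → ℕ) :
    ∃ (pad pad₀ : ℕ → ℕ) (d : ℝ), ∀ N : ℕ,
      (((Finset.range N).filter (fun i => str i ∈
        {y : List Bool | ∃ e x, y ∈ codes e (b₀ e) (c e) (pad e) (pad₀ e) x})).card : ℝ) ≤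
        f N + d := by
  push Not at hf
  obtain ⟨ε, hε, h⟩ := hf
  obtain ⟨N₀, hN₀⟩ := Filter.eventually_atTop.1 h
  obtain ⟨pad, pad₀, hp⟩ := PAD.exists_pad hε b₀ c
  refine ⟨pad, pad₀, N₀ + ∑ N ∈ Finset.range N₀, |f N|, fun N => ?_⟩
  have hs : 0 ≤ ∑ N ∈ Finset.range N₀, |f N| := Finset.sum_nonneg fun _ _ => abs_nonneg _
  have hN0 : (0 : ℝ) ≤ N₀ := Nat.cast_nonneg _
  rcases le_or_gt N₀ N with hN | hN
  · have h1 := PAD.count hε b₀ c pad pad₀ hp N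
    have h2 := hN₀ N hN
    linarith
  · have h1 : (((Finset.range N).filter (fun i => str i ∈
        {y : List Bool | ∃ e x, y ∈ codes e (b₀ e) (c e) (pad e) (pad₀ e) x})).card : ℝ) ≤ N := by
      have := Finset.card_filter_le (Finset.range N) (fun i => str i ∈
        {y : List Bool | ∃ e x, y ∈ codes e (b₀ e) (c e) (pad e) (pad₀ e) x})
      rw [Finset.card_range] at this
      exact_mod_cast this
    have h2 : |f N| ≤ ∑ N ∈ Finset.range N₀, |f N| :=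
      Finset.single_le_sum (f := fun N => |f N|) (fun _ _ => abs_nonneg _)
        (Finset.mem_range.2 hN)
    have h3 := neg_abs_le (f N)
    have h4 : (N : ℝ) ≤ N₀ := by exact_mod_cast hN.le
    linarith

end Pool.Agent.H622R2.Lba
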