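import Pool.Agent.H622R2.Lba.Base
import Pool.Agent.H620R2.Gauge2.Trans

/-!
# Task PNE: P is contained in NE
-/

namespace Pool.Agent.H622R2.Lba

open Pool.Agent.NPC Pool.Agent.H620R2.Gauge Pool.Agent.H622R2.Exp Finset H568R2 Pool.Agent.H676
open Filter (atTop)

theorem _root_.Pool.Agent.H620R2.Gauge.IsP.inNTime {A : Oracle} {L : Set (List Bool)}
    (h : IsP A L) : InNTime Lin A L := by
  obtain ⟨V, hV, hL⟩ := h
  have h2 : NPC.Poly (fun z : List Bool => (unpair z).2) := NPC.Poly.snd poly_unpair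
  refine ⟨fun z => V (unpair z).2, hV.precomp h2, _, ⟨0, rfl⟩, fun x => ?_⟩
  rw [hL x]
  constructor
  · intro h
    exact ⟨[], by simp, by show V (unpair (pairBits [] x)).2 = [true]; rw [unpair_pairBits]; exact h⟩
  · rintro ⟨w, _, hw⟩
    have hw' : V (unpair (pairBits w x)).2 = [true] := hw
    rw [unpair_pairBits] at hw'
    exact hw'

end Pool.Agent.H622R2.Lba
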