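import Pool.Agent.H622R2.Lba.Base

set_option autoImplicit false

/-! Task SIA: a short accepting computation (pigeonhole). -/

namespace Pool.Agent.H622R2.Lba

open Pool.Agent.NPC Pool.Agent.H620R2.Gauge Pool.Agent.H622R2.Exp Finset H568R2

namespace SIA

theorem path_of_reach {α : Type} {R : α → α → Prop} {a b : α}
    (h : Relation.ReflTransGen R a b) :
    ∃ (t : ℕ) (c : ℕ → α), c 0 = a ∧ (∀ i < t, R (c i) (c (i + 1))) ∧ c t = b := by
  induction h with
  | refl => exact ⟨0, fun _ => a, rfl, fun i hi => absurd hi (Nat.not_lt_zero _), rfl⟩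
  | @tail b' c' _ hn ih =>
    obtain ⟨t, c, h0, hs, ht⟩ := ih
    refine ⟨t + 1, fun i => if i ≤ t then c i else c', by simp [h0], ?_, by simp⟩
    intro i hi
    by_cases h1 : i < t
    · simp only [h1.le, if_true, show i + 1 ≤ t from h1]
      exact hs i h1
    · have : i = t := by omega
      subst this
      simp only [le_refl, if_true, show ¬ (i + 1 ≤ i) by omega, if_false]
      rw [ht]; exact hn

/-- in a shortest path to a set no vertex is repeated -/
theorem shortest {α : Type} {R : α → α → Prop} {a : α} {P : α → Prop} (t : ℕ) (c : ℕ → α)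
    (h0 : c 0 = a) (hs : ∀ i < t, R (c i) (c (i + 1))) (hP : P (c t))
    (hmin : ∀ (t' : ℕ) (c' : ℕ → α), c' 0 = a → (∀ i < t', R (c' i) (c' (i + 1))) → P (c' t') →
      t ≤ t') (i j : ℕ) (hij : i < j) (hj : j ≤ t) : c i ≠ c j := by
  intro he
  have := hmin (t - (j - i)) (fun s => if s ≤ i then c s else c (s + (j - i))) (by simp [h0]) ?_ ?_
  · omega
  · intro s hs'
    by_cases h1 : s < i
    · simp only [h1.le, if_true, show s + 1 ≤ i from h1]
      exact hs s (by omega)
    · by_cases h2 : s = i
      · subst h2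
        simp only [le_refl, if_true, show ¬ (s + 1 ≤ s) by omega, if_false]
        rw [he]
        have h3 : s + 1 + (j - s) = j + 1 := by omega
        rw [h3]
        exact hs j (by omega)
      · simp only [show ¬ (s ≤ i) by omega, show ¬ (s + 1 ≤ i) by omega, if_false]
        have h3 : s + 1 + (j - i) = s + (j - i) + 1 := by omega
        rw [h3]
        exact hs _ (by omega)
  · show P (if t - (j - i) ≤ i then c (t - (j - i)) else c (t - (j - i) + (j - i)))
    split_ifs with h
    · have h4 : t - (j - i) = i := by omega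
      have h5 : t = j := by omega
      rw [h4, he, ← h5]
      exact hP
    · have h4 : t - (j - i) + (j - i) = t := by omega
      rw [h4]; exact hP

theorem write_length {Γ : Type} (t : List Γ) (i : ℕ) (o : Option Γ) :
    (write t i o).length = t.length := by
  cases o with
  | none => rfl
  | some g =>
    simp only [write]
    split_ifs
    · rfl
    · simp

theorem move_le (n : ℕ) (v : Mv) (i : ℕ) (hi : i ≤ n + 1) : move n v i ≤ n + 1 := by
  cases v <;> simp only [move] <;> omega

theorem next_inv {Q Γ : Type} (M : LBA Q Γ) (A : Oracle) (n : ℕ) (c c' : Cfg Q Γ)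
    (h : M.Next A c c') (h1 : c.tape.length = n) (h2 : c.pos ≤ n + 1) :
    c'.tape.length = n ∧ c'.pos ≤ n + 1 := by
  unfold LBA.Next at h
  split at h
  · rw [h]; exact ⟨h1, h2⟩
  · obtain ⟨a, _, rfl⟩ := h
    refine ⟨(write_length _ _ _).trans h1, ?_⟩
    show move c.tape.length a.2.2 c.pos ≤ n + 1
    rw [h1]
    exact move_le _ _ _ h2

end SIA

theorem acc_bound {k m : ℕ} (M : LBA (Fin k) (Fin m)) (hM : M.Det) (A : Oracle)
    (x : List Bool) (h : M.Acc A x) :
    ∃ (t : ℕ) (c : ℕ → Cfg (Fin k) (Fin m)), t ≤ k * (x.length + 2) * m ^ x.length ∧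
      c 0 = M.init x ∧ (∀ i < t, M.Next A (c i) (c (i + 1))) ∧ M.acc (c t).q = true := by
  classical
  let _ := hM
  obtain ⟨b, hb, ha⟩ := h
  have hex : ∃ t : ℕ, ∃ c : ℕ → Cfg (Fin k) (Fin m), c 0 = M.init x ∧
      (∀ i < t, M.Next A (c i) (c (i + 1))) ∧ M.acc (c t).q = true := by
    obtain ⟨t, c, h0, hs, ht⟩ := SIA.path_of_reach hb
    exact ⟨t, c, h0, hs, by rw [ht]; exact ha⟩
  obtain ⟨c, h0, hs, hacc⟩ := Nat.find_spec hex
  set t := Nat.find hex with ht
  have hinj : ∀ i j, i < j → j ≤ t → c i ≠ c j :=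
    SIA.shortest (P := fun c => M.acc c.q = true) t c h0 hs hacc
      (fun t' c' h0' hs' hP' => Nat.find_min' hex ⟨c', h0', hs', hP'⟩)
  have hinv : ∀ i ≤ t, (c i).tape.length = x.length ∧ (c i).pos ≤ x.length + 1 := by
    intro i
    induction i with
    | zero => intro _; rw [h0]; simp [LBA.init]
    | succ i ih =>
      intro hi
      have := ih (by omega)
      exact SIA.next_inv M A x.length _ _ (hs i (by omega)) this.1 this.2
  refine ⟨t, c, ?_, h0, hs, hacc⟩
  let F : Fin (t + 1) → Fin k × Fin (x.length + 2) × (Fin x.length → Fin m) := fun i =>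
    ((c i.1).q, ⟨(c i.1).pos, by have := (hinv i.1 (by omega)).2; omega⟩,
      fun l => (c i.1).tape[l.1]'(by rw [(hinv i.1 (by omega)).1]; exact l.2))
  have hF : Function.Injective F := by
    intro i j hij
    simp only [F, Prod.mk.injEq, Fin.mk.injEq] at hij
    obtain ⟨e1, e2, e3⟩ := hij
    have e4 : (c i.1).tape = (c j.1).tape := by
      apply List.ext_getElem
      · rw [(hinv i.1 (by omega)).1, (hinv j.1 (by omega)).1]
      · intro l hl1 hl2
        have hl : l < x.length := by rw [(hinv i.1 (by omega)).1] at hl1; exact hl1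
        exact congrFun e3 ⟨l, hl⟩
    have e5 : c i.1 = c j.1 := by
      cases hci : c i.1
      cases hcj : c j.1
      rw [hci, hcj] at e1 e2 e4
      simp only at e1 e2 e4
      rw [e1, e2, e4]
    apply Fin.ext
    rcases lt_trichotomy i.1 j.1 with h1 | h1 | h1
    · exact absurd e5 (hinj _ _ h1 (by omega))
    · exact h1
    · exact absurd e5.symm (hinj _ _ h1 (by omega))
  have hcard := Fintype.card_le_of_injective F hF
  simp only [Fintype.card_fin, Fintype.card_prod, Fintype.card_pi, Finset.prod_const,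
    Finset.card_univ] at hcard
  rw [← mul_assoc] at hcard
  omega

end Pool.Agent.H622R2.Lba
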