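import Pool.Agent.H622R2.Lba.Base
import Pool.Agent.H622R2.Lba.SIA
import Pool.Agent.H622R2.Exp.A6
import Pool.Agent.H671R2.PolyAuto
import Pool.Agent.NPC.CookLevin3

/-!
# Task SIB: deterministic linear space is in deterministic linear exponential time (helper634)
-/

namespace Pool.Agent.H622R2.Lba

open Pool.Agent.NPC Pool.Agent.H620R2.Gauge Pool.Agent.H622R2.Exp
open Pool.Agent.NPC.CL (polyOfFintype encFintype)

namespace SIB

variable {k m : ℕ}

/-- configurations as tuples -/
abbrev St (k m : ℕ) : Type := Fin k × ℕ × List (Fin m)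

/-- the configuration -/
def cf (s : St k m) : Cfg (Fin k) (Fin m) := ⟨s.1, s.2.1, s.2.2⟩

/-- head moves as numbers -/
def mvc : Mv → ℕ
  | .left => 0
  | .stay => 1
  | .right => 2

/-- moving -/
def mv (n j i : ℕ) : ℕ := if j = 0 then i - 1 else if j = 1 then i else min (i + 1) (n + 1)

theorem mv_eq (n : ℕ) (a : Mv) (i : ℕ) : mv n (mvc a) i = move n a i := by
  cases a <;> simp [mv, mvc, move]

/-- writing into a list -/
def setl (t : List (Fin m)) (j : ℕ) (g : Fin m) : List (Fin m) :=
  t.zipIdx.map fun p => if p.2 = j then g else p.1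

theorem setl_eq (t : List (Fin m)) (j : ℕ) (g : Fin m) : setl t j g = t.set j g := by
  unfold setl
  apply List.ext_getElem
  · simp
  · intro i h1 h2
    simp only [List.getElem_map, List.getElem_zipIdx, List.getElem_set, Nat.zero_add]
    by_cases h : i = j
    · subst h; simp
    · rw [if_neg h, if_neg (Ne.symm h)]

/-- writing under the head -/
def wr (t : List (Fin m)) (i : ℕ) (o : Option (Fin m)) : List (Fin m) :=
  o.elim t fun g => if i = 0 then t else setl t (i - 1) g

theorem wr_eq (t : List (Fin m)) (i : ℕ) (o : Option (Fin m)) : wr t i o = write t i o := by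
  cases o with
  | none => rfl
  | some g => simp only [wr, write, Option.elim, setl_eq]

theorem wr_length (t : List (Fin m)) (i : ℕ) (o : Option (Fin m)) :
    (wr t i o).length = t.length := by
  cases o with
  | none => rfl
  | some g =>
    simp only [wr, Option.elim]
    split
    · rfl
    · simp [setl]

/-- the letter under the head -/
def rd (s : St k m) : Option (Fin m) := if s.2.1 = 0 then none else s.2.2[s.2.1 - 1]?

variable (M : LBA (Fin k) (Fin m))

/-- the action -/
def ac (p : Fin k × Option (Fin m)) : Option (Fin k × Option (Fin m) × ℕ) :=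
  (M.step p.1 p.2).head?.map fun a => (a.1, a.2.1, mvc a.2.2)

/-- the next configuration, the answer being `b` -/
def stp (b : Bool) (s : St k m) : St k m :=
  (M.ask s.1).elim
    ((ac M (s.1, rd s)).elim s fun a => (a.1, mv s.2.2.length a.2.2 s.2.1, wr s.2.2 s.2.1 a.2.1))
    fun y => (if b = true then y.2.1 else y.2.2, s.2)

/-- the question -/
def qu (s : St k m) : List Bool :=
  (M.ask s.1).elim [] fun y => y.1 ++ (s.2.2.map M.word).flatten

/-- the initial configuration -/
def ini (x : List Bool) : St k m := (M.start, 0, x.map M.inp)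

/-- the simulation -/
def sim (s : Bool × St k m) (a : List Bool) : Bool × St k m :=
  a.foldl (fun s b => (s.1 || M.acc s.2.1, stp M b s.2)) s

theorem stp_length (b : Bool) (s : St k m) : (stp M b s).2.2.length = s.2.2.length := by
  unfold stp
  cases M.ask s.1 with
  | some y => rfl
  | none =>
    cases ac M (s.1, rd s) with
    | none => rfl
    | some a => exact wr_length _ _ _

theorem stp_pos (b : Bool) (s : St k m) (h : s.2.1 ≤ s.2.2.length + 1) :
    (stp M b s).2.1 ≤ s.2.2.length + 1 := by
  unfold stp
  cases M.ask s.1 with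
  | some y => exact h
  | none =>
    cases ac M (s.1, rd s) with
    | none => exact h
    | some a =>
      simp only [Option.elim, mv]
      split
      · omega
      · split
        · exact h
        · exact min_le_right _ _

theorem sim_inv (n : ℕ) (a : List Bool) : ∀ s : Bool × St k m, s.2.2.2.length = n →
    s.2.2.1 ≤ n + 1 → (sim M s a).2.2.2.length = n ∧ (sim M s a).2.2.1 ≤ n + 1 := by
  induction a with
  | nil => intro s h1 h2; exact ⟨h1, h2⟩
  | cons b a ih =>
    intro s h1 h2
    refine ih _ ?_ ?_
    · simp only [stp_length, h1]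
    · have := stp_pos M b s.2 (by rw [h1]; exact h2)
      rw [h1] at this
      exact this

/-- the next action -/
noncomputable def act (C : ℕ) (p : List Bool × List Bool) : List Bool :=
  if p.2.length < 2 ^ (Polynomial.C C * (Polynomial.X + 1) : Polynomial ℕ).eval p.1.length then
    false :: qu M (sim M (false, ini M p.1) p.2).2
  else [true, (sim M (false, ini M p.1) p.2).1 || M.acc (sim M (false, ini M p.1) p.2).2.1]

section poly

variable {α : Type} [TEnc α] [TEnc (Fin k)] [TEnc (Fin m)]

theorem poly_mv {n j i : α → ℕ} (hn : Poly n) (hj : Poly j) (hi : Poly i) :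
    Poly fun a => mv (n a) (j a) (i a) := by
  unfold mv
  fun_prop

theorem poly_wr {t : α → List (Fin m)} {i : α → ℕ} {o : α → Option (Fin m)} (ht : Poly t)
    (hi : Poly i) (ho : Poly o) : Poly fun a => wr (t a) (i a) (o a) := by
  unfold wr setl
  fun_prop

theorem poly_rd {s : α → St k m} (hs : Poly s) : Poly fun a => rd (s a) := by
  unfold rd
  fun_prop

theorem poly_stp {b : α → Bool} {s : α → St k m} (hb : Poly b) (hs : Poly s) :
    Poly fun a => stp M (b a) (s a) := by
  unfold stp
  have h1 : Poly fun a => M.ask (s a).1 := (polyOfFintype M.ask).comp (Poly.fst hs)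
  have h2 : Poly fun a => ac M ((s a).1, rd (s a)) :=
    (polyOfFintype (ac M)).comp (Poly.pair (Poly.fst hs) (poly_rd hs))
  refine Poly.optElim h1 (Poly.optElim h2 hs ?_) ?_
  · exact Poly.pair (by fun_prop) (Poly.pair (poly_mv (by fun_prop) (by fun_prop) (by fun_prop))
      (poly_wr (by fun_prop) (by fun_prop) (by fun_prop)))
  · fun_prop

theorem poly_qu {s : α → St k m} (hs : Poly s) : Poly fun a => qu M (s a) := by
  unfold qu
  have h1 : Poly fun a => M.ask (s a).1 := (polyOfFintype M.ask).comp (Poly.fst hs)
  have h2 : Poly M.word := polyOfFintype M.word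
  refine Poly.optElim h1 (NPC.Poly.const _) ?_
  refine Poly.append (by fun_prop) (Poly.flatten (NPC.Poly.map (F := fun _ g => M.word g)
    (by fun_prop) (h2.comp (Poly.snd Poly.id))))

theorem poly_ini {x : α → List Bool} (hx : Poly x) : Poly fun a => ini M (x a) := by
  unfold ini
  have h2 : Poly M.inp := polyOfFintype M.inp
  exact Poly.pair (NPC.Poly.const _) (Poly.pair (NPC.Poly.const _)
    (NPC.Poly.map (F := fun _ g => M.inp g) hx (h2.comp (Poly.snd Poly.id))))

theorem sz_fin_le : ∃ B : ℕ, ∀ g : Fin m, sz g ≤ B :=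
  ⟨Finset.univ.sup fun g : Fin m => sz g, fun g => Finset.le_sup (f := fun g : Fin m => sz g)
    (Finset.mem_univ g)⟩

theorem poly_sim {x a : α → List Bool} (hx : Poly x) (ha : Poly a) :
    Poly fun y => sim M (false, ini M (x y)) (a y) := by
  obtain ⟨B, hB⟩ := sz_fin_le (m := m)
  obtain ⟨B', hB'⟩ := sz_fin_le (m := k)
  obtain ⟨p, hp⟩ := hx.sz_le
  have hacc : Poly M.acc := polyOfFintype M.acc
  refine Poly.foldl (F := fun _ (s : Bool × St k m) b => (s.1 || M.acc s.2.1, stp M b s.2))
    ha (Poly.pair (NPC.Poly.const _) (poly_ini M hx)) ?_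
    (Polynomial.C (B + B' + 20) * (p + 1)) ?_
  · refine Poly.pair (Poly.or (by fun_prop) (hacc.comp (by fun_prop)))
      (poly_stp M (by fun_prop) (by fun_prop))
  · intro y j _
    have h1 := sim_inv M (x y).length ((a y).take j) (false, ini M (x y)) (by simp [ini])
      (by simp [ini])
    change sz (sim M (false, ini M (x y)) ((a y).take j)) ≤ _
    generalize sim M (false, ini M (x y)) ((a y).take j) = s at h1
    obtain ⟨f, q, i, t⟩ := s
    simp only at h1
    have h2 : sz t ≤ t.length * (B + 1) + 1 := sz_le_length_mul t B fun g _ => hB g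
    have h3 : sz i ≤ 4 * i + 1 := (sz_nat_le i).trans (by
      have : i.size ≤ i := Nat.size_le.2 Nat.lt_two_pow_self
      omega)
    have h4 := hB' q
    have h5 := sz_bool_le f
    have h6 : 2 * (x y).length + 1 ≤ sz (x y) := sz_listBool_ge _
    have h7 := hp y
    have h8 : (x y).length ≤ p.eval (sz y) := by omega
    simp only [sz_pair, Polynomial.eval_mul, Polynomial.eval_C, Polynomial.eval_add,
      Polynomial.eval_one]
    rw [h1.1] at h2
    have h9 : (x y).length * (B + 1) ≤ p.eval (sz y) * (B + 1) := Nat.mul_le_mul_right _ h8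
    nlinarith [h1.2]

theorem poly_act (C : ℕ) : Poly fun y => act M C (unpair y) := by
  have hx : Poly (fun y => (unpair y).1) := Poly.fst poly_unpair
  have ha : Poly (fun y => (unpair y).2) := Poly.snd poly_unpair
  have hR : Poly (fun y : List Bool => 2 ^ (Polynomial.C C * (Polynomial.X + 1) :
      Polynomial ℕ).eval (unpair y).1.length) :=
    A6.poly_two_pow ((UPoly.length hx).eval _)
  have hs := poly_sim M hx ha
  have hacc : Poly M.acc := polyOfFintype M.acc
  unfold act
  refine Poly.ite (Poly.decide_lt (Poly.length ha) hR) (Poly.cons (NPC.Poly.const _)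
    (poly_qu M (Poly.snd hs))) ?_
  refine Poly.cons (NPC.Poly.const _) (Poly.cons (Poly.or (Poly.fst hs)
    (hacc.comp (Poly.fst (Poly.snd hs)))) (NPC.Poly.const _))

end poly

/-! ### Correctness -/

theorem rd_eq (s : St k m) : rd s = (cf s).read := rfl

theorem stp_of_next (hM : M.Det) (A : Oracle) (s : St k m) (c : Cfg (Fin k) (Fin m))
    (h : M.Next A (cf s) c) : c = cf (stp M (A (qu M s)) s) := by
  unfold LBA.Next at h
  unfold stp qu
  have e : (cf s).q = s.1 := rfl
  rw [e] at h
  cases hq : M.ask s.1 with
  | some y =>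
    rw [hq] at h
    obtain ⟨p, q₁, q₀⟩ := y
    simp only at h
    rw [h]
    simp only [Option.elim, cf, LBA.question]
    rfl
  | none =>
    rw [hq] at h
    simp only at h
    obtain ⟨a, ha, h⟩ := h
    have h1 := hM s.1 (cf s).read
    have h2 : M.step s.1 (cf s).read = [a] := by
      match hl : M.step s.1 (cf s).read, h1, ha with
      | [b], _, ha => simp only [List.mem_singleton] at ha; rw [ha]
      | [], _, ha => simp at ha
    simp only [Option.elim, ac, rd_eq, h2, List.head?_cons, Option.map_some]
    rw [h, mv_eq, wr_eq]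
    rfl

theorem next_stp (A : Oracle) (s : St k m) :
    stp M (A (qu M s)) s = s ∨ M.Next A (cf s) (cf (stp M (A (qu M s)) s)) := by
  unfold LBA.Next stp qu
  have e : (cf s).q = s.1 := rfl
  rw [e]
  cases hq : M.ask s.1 with
  | some y =>
    right
    obtain ⟨p, q₁, q₀⟩ := y
    simp only [Option.elim, cf, LBA.question]
    rfl
  | none =>
    simp only [Option.elim, ac, rd_eq]
    cases hl : M.step s.1 (cf s).read with
    | nil => left; simp
    | cons a l =>
      right
      refine ⟨a, by simp, ?_⟩
      simp only [List.head?_cons, Option.map_some]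
      rw [mv_eq, wr_eq]
      rfl

/-- the computation -/
def cs (A : Oracle) (x : List Bool) : ℕ → St k m
  | 0 => ini M x
  | i + 1 => stp M (A (qu M (cs A x i))) (cs A x i)

/-- the answers -/
def an (A : Oracle) (x : List Bool) (i : ℕ) : List Bool :=
  (List.range i).map fun j => A (qu M (cs M A x j))

/-- the flag -/
def fl (A : Oracle) (x : List Bool) (i : ℕ) : Bool :=
  (List.range i).any fun j => M.acc (cs M A x j).1

theorem fl_succ (A : Oracle) (x : List Bool) (i : ℕ) :
    fl M A x (i + 1) = (fl M A x i || M.acc (cs M A x i).1) := by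
  simp [fl, List.range_succ]

theorem an_succ (A : Oracle) (x : List Bool) (i : ℕ) :
    an M A x (i + 1) = an M A x i ++ [A (qu M (cs M A x i))] := by
  simp [an, List.range_succ]

theorem an_length (A : Oracle) (x : List Bool) (i : ℕ) : (an M A x i).length = i := by
  simp [an]

theorem sim_an (A : Oracle) (x : List Bool) (i : ℕ) :
    sim M (false, ini M x) (an M A x i) = (fl M A x i, cs M A x i) := by
  induction i with
  | zero => rfl
  | succ i ih =>
    rw [an_succ]
    unfold sim at ih ⊢
    rw [List.foldl_append, ih, fl_succ]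
    rfl

theorem reach_cs (A : Oracle) (x : List Bool) (i : ℕ) :
    Relation.ReflTransGen (M.Next A) (M.init x) (cf (cs M A x i)) := by
  induction i with
  | zero => exact Relation.ReflTransGen.refl
  | succ i ih =>
    rcases next_stp M A (cs M A x i) with h | h
    · change Relation.ReflTransGen (M.Next A) (M.init x)
        (cf (stp M (A (qu M (cs M A x i))) (cs M A x i)))
      rw [h]
      exact ih
    · exact ih.tail h

theorem fl_iff (hM : M.Det) (A : Oracle) (x : List Bool) (R : ℕ)
    (hR : k * (x.length + 2) * m ^ x.length ≤ R) : fl M A x (R + 1) = true ↔ M.Acc A x := by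
  constructor
  · intro h
    unfold fl at h
    rw [List.any_eq_true] at h
    obtain ⟨j, _, hj⟩ := h
    exact ⟨_, reach_cs M A x j, hj⟩
  · intro h
    obtain ⟨t, c, ht, h0, hn, hacc⟩ := acc_bound M hM A x h
    have key : ∀ i ≤ t, c i = cf (cs M A x i) := by
      intro i
      induction i with
      | zero => intro _; rw [h0]; rfl
      | succ i ih =>
        intro hi
        have h1 := hn i (by omega)
        rw [ih (by omega)] at h1
        exact stp_of_next M hM A _ _ h1
    unfold fl
    rw [List.any_eq_true]
    refine ⟨t, by rw [List.mem_range]; omega, ?_⟩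
    rw [key t le_rfl] at hacc
    exact hacc

/-- the algorithm -/
noncomputable def alg (C : ℕ) : Alg where
  D := fun y => act M C (unpair y)
  poly := by
    let _ := encFintype (Fin k)
    let _ := encFintype (Fin m)
    exact polyTime_of_poly_list (poly_act M C)
  p := 0

theorem alg_D (C : ℕ) (x a : List Bool) :
    (alg M C).D (pairBits x a) = act M C (x, a) := by
  change act M C (unpair (pairBits x a)) = _
  rw [unpair_pairBits]

theorem run_alg (C : ℕ) (A : Oracle) (x : List Bool) (R : ℕ)
    (hR : R = 2 ^ (Polynomial.C C * (Polynomial.X + 1) : Polynomial ℕ).eval x.length) :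
    ∀ (n i : ℕ), n + i = R →
    (alg M C).run A x (n + 1) (an M A x i) = some [fl M A x (R + 1)] := by
  intro n
  induction n with
  | zero =>
    intro i hi
    have h1 : (alg M C).D (pairBits x (an M A x i)) = true :: [fl M A x (R + 1)] := by
      rw [alg_D]
      unfold act
      rw [if_neg (by simp only [an_length]; omega), sim_an]
      rw [fl_succ]
      simp only [show i = R by omega]
    simp only [Alg.run, h1]
  | succ n ih =>
    intro i hi
    have h1 : (alg M C).D (pairBits x (an M A x i)) = false :: qu M (cs M A x i) := by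
      rw [alg_D]
      unfold act
      rw [if_pos (by simp only [an_length]; omega), sim_an]
    rw [Alg.run]
    simp only [h1]
    rw [← an_succ]
    exact ih (i + 1) (by omega)

theorem bound (k m n : ℕ) : k * (n + 2) * m ^ n ≤ 2 ^ ((k + m + 1) * (n + 1)) := by
  have h1 : k ≤ 2 ^ k := Nat.lt_two_pow_self.le
  have h2 : n + 2 ≤ 2 ^ (n + 1) := Nat.lt_two_pow_self
  have h3 : m ^ n ≤ 2 ^ (m * n) := by
    rw [pow_mul]
    exact Nat.pow_le_pow_left Nat.lt_two_pow_self.le n
  calc k * (n + 2) * m ^ n ≤ 2 ^ k * 2 ^ (n + 1) * 2 ^ (m * n) :=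
        Nat.mul_le_mul (Nat.mul_le_mul h1 h2) h3
    _ = 2 ^ (k + (n + 1) + m * n) := by rw [pow_add 2 (k + (n + 1)), pow_add 2 k]
    _ ≤ _ := Nat.pow_le_pow_right (by norm_num) (by nlinarith)

end SIB

open SIB in
theorem IsDLBA.inTime {A : Oracle} {L : Set (List Bool)} (h : IsDLBA A L) : InTime Lin A L := by
  obtain ⟨k, m, M, hM, hL⟩ := h
  refine ⟨alg M (k + m + 1), Polynomial.C (k + m + 2) * (Polynomial.X + 1), ⟨_, rfl⟩,
    fun x => ⟨[fl M A x (2 ^ (Polynomial.C (k + m + 1) * (Polynomial.X + 1) :
      Polynomial ℕ).eval x.length + 1)], ?_, ?_⟩⟩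
  · refine Alg.run_mono _ A x _ (2 ^ (Polynomial.C (k + m + 1) * (Polynomial.X + 1) :
      Polynomial ℕ).eval x.length + 1) _ [] ?_ ?_
    · simp only [Polynomial.eval_mul, Polynomial.eval_C, Polynomial.eval_add, Polynomial.eval_X,
        Polynomial.eval_one]
      have h1 : (k + m + 2) * (x.length + 1) = (k + m + 1) * (x.length + 1) + x.length + 1 := by
        ring
      have h2 : 2 ^ ((k + m + 1) * (x.length + 1) + 1) ≤ 2 ^ ((k + m + 2) * (x.length + 1)) :=
        Nat.pow_le_pow_right (by norm_num) (by omega)
      have h3 : 1 ≤ 2 ^ ((k + m + 1) * (x.length + 1)) := Nat.one_le_two_pow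
      rw [pow_succ] at h2
      omega
    · exact run_alg M (k + m + 1) A x _ rfl _ 0 (by simp)
  · have h1 : k * (x.length + 2) * m ^ x.length ≤ 2 ^ (Polynomial.C (k + m + 1) *
        (Polynomial.X + 1) : Polynomial ℕ).eval x.length := by
      have h2 : (Polynomial.C (k + m + 1) * (Polynomial.X + 1) : Polynomial ℕ).eval x.length =
          (k + m + 1) * (x.length + 1) := by
        simp only [Polynomial.eval_mul, Polynomial.eval_C, Polynomial.eval_add,
          Polynomial.eval_X, Polynomial.eval_one]
      rw [h2]
      exact bound k m x.length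
    rw [hL x, ← fl_iff M hM A x _ h1]
    simp only [List.cons.injEq, and_true]

end Pool.Agent.H622R2.Lba
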