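import Pool.Agent.H622R2.Lba.Base

set_option autoImplicit false

/-! Task TRN: the state set and the alphabet may be taken to be `Fin k`, `Fin m`. -/

namespace Pool.Agent.H622R2.Lba

open Pool.Agent.NPC Pool.Agent.H620R2.Gauge Pool.Agent.H622R2.Exp Finset H568R2

namespace TRN

variable {Q Γ Q' Γ' : Type}

/-- the transported automaton -/
def tr (M : LBA Q Γ) (a : Q ≃ Q') (b : Γ ≃ Γ') : LBA Q' Γ' where
  inp := fun i => b (M.inp i)
  start := a M.start
  acc := fun q => M.acc (a.symm q)
  step := fun q r => (M.step (a.symm q) (r.map b.symm)).map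
    (fun s => (a s.1, s.2.1.map b, s.2.2))
  ask := fun q => (M.ask (a.symm q)).map (fun s => (s.1, a s.2.1, a s.2.2))
  word := fun g => M.word (b.symm g)

/-- the transported configuration -/
def phi (a : Q ≃ Q') (b : Γ ≃ Γ') (c : Cfg Q Γ) : Cfg Q' Γ' := ⟨a c.q, c.pos, c.tape.map b⟩

theorem phi_surj (a : Q ≃ Q') (b : Γ ≃ Γ') (d : Cfg Q' Γ') : ∃ c, phi a b c = d := by
  refine ⟨⟨a.symm d.q, d.pos, d.tape.map b.symm⟩, ?_⟩
  simp [phi]

theorem phi_inj (a : Q ≃ Q') (b : Γ ≃ Γ') {c c' : Cfg Q Γ} (h : phi a b c = phi a b c') :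
    c = c' := by
  cases c; cases c'
  simp only [phi, Cfg.mk.injEq, EmbeddingLike.apply_eq_iff_eq] at h
  obtain ⟨h1, h2, h3⟩ := h
  have h4 := List.map_injective_iff.2 b.injective h3
  rw [h1, h2, h4]

theorem read_phi (a : Q ≃ Q') (b : Γ ≃ Γ') (c : Cfg Q Γ) :
    (phi a b c).read = c.read.map b := by
  simp only [Cfg.read, phi]
  split_ifs
  · rfl
  · simp

theorem write_phi (b : Γ ≃ Γ') (t : List Γ) (i : ℕ) (o : Option Γ) :
    write (t.map b) i (o.map b) = (write t i o).map b := by
  cases o with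
  | none => rfl
  | some g =>
    simp only [write, Option.map_some]
    split_ifs
    · rfl
    · rw [List.map_set]

theorem question_phi (M : LBA Q Γ) (a : Q ≃ Q') (b : Γ ≃ Γ') (p : List Bool) (t : List Γ) :
    (tr M a b).question p (t.map b) = M.question p t := by
  simp only [LBA.question, tr, List.map_map]
  congr 3
  funext g
  simp

theorem next_iff (M : LBA Q Γ) (a : Q ≃ Q') (b : Γ ≃ Γ') (A : Oracle) (c c' : Cfg Q Γ) :
    (tr M a b).Next A (phi a b c) (phi a b c') ↔ M.Next A c c' := by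
  have hq : (phi a b c).q = a c.q := rfl
  have hask : (tr M a b).ask (a c.q) = (M.ask c.q).map (fun s => (s.1, a s.2.1, a s.2.2)) := by
    simp [tr]
  unfold LBA.Next
  rw [hq, hask]
  rcases hM : M.ask c.q with _ | ⟨p, q₁, q₀⟩
  · simp only [Option.map_none]
    have hstep : (tr M a b).step (a c.q) (phi a b c).read =
        (M.step c.q c.read).map (fun s => (a s.1, s.2.1.map b, s.2.2)) := by
      rw [read_phi]
      simp [tr]
    rw [hstep]
    constructor
    · rintro ⟨s, hs, hc⟩
      obtain ⟨r, hr, rfl⟩ := List.mem_map.1 hs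
      refine ⟨r, hr, ?_⟩
      apply phi_inj a b
      rw [hc]
      simp only [phi, List.length_map, write_phi]
    · rintro ⟨r, hr, hc⟩
      refine ⟨_, List.mem_map.2 ⟨r, hr, rfl⟩, ?_⟩
      rw [hc]
      simp only [phi, List.length_map, write_phi]
  · simp only [Option.map_some]
    have h1 : (tr M a b).question p (phi a b c).tape = M.question p c.tape :=
      question_phi M a b p c.tape
    rw [h1]
    have h2 : (⟨if A (M.question p c.tape) = true then a q₁ else a q₀, (phi a b c).pos,
        (phi a b c).tape⟩ : Cfg Q' Γ') =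
        phi a b ⟨if A (M.question p c.tape) = true then q₁ else q₀, c.pos, c.tape⟩ := by
      simp only [phi]
      split_ifs <;> rfl
    rw [h2]
    constructor
    · exact fun h => phi_inj a b h
    · exact fun h => by rw [h]

theorem init_phi (M : LBA Q Γ) (a : Q ≃ Q') (b : Γ ≃ Γ') (x : List Bool) :
    (tr M a b).init x = phi a b (M.init x) := by
  simp [LBA.init, tr, phi]

theorem reach_iff (M : LBA Q Γ) (a : Q ≃ Q') (b : Γ ≃ Γ') (A : Oracle) (c c' : Cfg Q Γ) :
    Relation.ReflTransGen ((tr M a b).Next A) (phi a b c) (phi a b c') ↔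
      Relation.ReflTransGen (M.Next A) c c' := by
  constructor
  · intro h
    have key : ∀ d, Relation.ReflTransGen ((tr M a b).Next A) (phi a b c) d →
        ∀ c', phi a b c' = d → Relation.ReflTransGen (M.Next A) c c' := by
      intro d hd
      induction hd with
      | refl =>
        intro c' hc'
        rw [phi_inj a b hc']
      | tail _ hn ih =>
        intro c' hc'
        rename_i d₁ d₂ _
        obtain ⟨c₁, hc₁⟩ := phi_surj a b d₁
        refine (ih c₁ hc₁).tail ?_
        rw [← next_iff M a b, hc₁, hc']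
        exact hn
    exact key _ h c' rfl
  · intro h
    exact Relation.ReflTransGen.lift (phi a b) (fun c c' hcc => (next_iff M a b A c c').2 hcc) _ _ h

theorem acc_iff (M : LBA Q Γ) (a : Q ≃ Q') (b : Γ ≃ Γ') (A : Oracle) (x : List Bool) :
    (tr M a b).Acc A x ↔ M.Acc A x := by
  unfold LBA.Acc
  rw [init_phi]
  constructor
  · rintro ⟨d, hd, ha⟩
    obtain ⟨c, rfl⟩ := phi_surj a b d
    refine ⟨c, (reach_iff M a b A _ _).1 hd, ?_⟩
    simpa [tr, phi] using ha
  · rintro ⟨c, hc, ha⟩
    refine ⟨phi a b c, (reach_iff M a b A _ _).2 hc, ?_⟩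
    simpa [tr, phi] using ha

theorem det (M : LBA Q Γ) (a : Q ≃ Q') (b : Γ ≃ Γ') (h : M.Det) : (tr M a b).Det := by
  intro q r
  simp only [tr, List.length_map]
  exact h _ _

end TRN

theorem transport {Q Γ : Type} [Fintype Q] [Fintype Γ] (M : LBA Q Γ) :
    ∃ (k m : ℕ) (M' : LBA (Fin k) (Fin m)), (M.Det → M'.Det) ∧
      ∀ (A : Oracle) (x : List Bool), M'.Acc A x ↔ M.Acc A x := by
  classical
  exact ⟨Fintype.card Q, Fintype.card Γ,
    TRN.tr M (Fintype.equivFin Q) (Fintype.equivFin Γ), TRN.det M _ _, TRN.acc_iff M _ _⟩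

end Pool.Agent.H622R2.Lba
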