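import Pool.Agent.H622R2.Lba.PAR
import Pool.Agent.H622R2.Lba.CDI
import Pool.Agent.H622R2.Lba.PAD
import Pool.Agent.H622R2.Lba.TRN
import Pool.Agent.H622R2.Lba.DEC
import Pool.Agent.H622R2.Lba.NEL
import Pool.Agent.H622R2.Lba.LNU
import Pool.Agent.H622R2.Lba.LTU
import Pool.Agent.H622R2.Lba.PNE
import Pool.Agent.H622R2.Lba.SIB
import Pool.Agent.H620R2.Gauge.C
import Pool.Agent.H620R2.GaugeR.R8
import Pool.Agent.H622R2.Exp.A2

/-!
# The size of the set of the oracles which make `DLBA` and `NE` equal: assembly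
-/

namespace Pool.Agent.H622R2.Lba

open Pool.Agent.NPC Pool.Agent.H620R2.Gauge Pool.Agent.H622R2.Exp Finset MeasureTheory
open Filter (atTop)

theorem exists_enum : ∃ g : ℕ → Alg × {q : Polynomial ℕ // q ∈ Lin}, Function.Surjective g := by
  have h1 := CC.poly_countable
  have hne : Nonempty Alg := by
    obtain ⟨M, _⟩ := IsFP.of_poly (A := fun _ => false) (F := fun x => x) Poly.id
    exact ⟨M⟩
  have h2 : Countable Alg := inferInstance
  have h3 : Nonempty {q : Polynomial ℕ // q ∈ Lin} := ⟨⟨_, 0, rfl⟩⟩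
  exact exists_surjective_nat _

open Classical in
theorem not_null_lba {f : ℕ → ℝ}
    (hf : ¬ ∀ ε : ℝ, 0 < ε → ∃ᶠ N : ℕ in atTop, f N ≤ (N : ℝ) ^ ε) (O : Set Oracle)
    (hO : ∀ A : Oracle, (∀ L, InNTime Lin A L → IsDLBA A L) → A ∈ O) : ¬ Null f O := by
  obtain ⟨g, hg⟩ := exists_enum
  choose r hr using fun e => ne_local (g e).1 (g e).2.2
  obtain ⟨pad, pad₀, d, hd⟩ := exists_pads hf (fun e => r e + e + 3) (fun e => r e + 2)
  set p : ℕ → Polynomial ℕ := fun e => Polynomial.C (r e) * (Polynomial.X + 1) with hp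
  have hpe : ∀ e n, (p e).eval n = r e * (n + 1) := by
    intro e n
    simp [hp]
  set C : ℕ → List Bool → Finset (List Bool) :=
    fun e x => codes e (r e + e + 3) (r e + 2) (pad e) (pad₀ e) x with hC
  set Q : ℕ → List Bool → Oracle → Prop := fun e x A =>
    ∃ w : List Bool, w.length ≤ 2 ^ (g e).2.1.eval x.length ∧
      (g e).1.out A (pairBits w x) = some [true] with hQ
  have hst : ∀ B : Oracle, ∃ A : Oracle, (∀ y, (∀ e x, y ∉ C e x) → A y = B y) ∧
      ∀ e x, (Q e x A ↔ Odd ((C e x).filter (fun y => A y = true)).card) := by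
    intro B
    refine exists_stagePar p C ?_ ?_ Q ?_ B
    · intro e x e' x' y h h'
      exact codes_disj (fun e => r e + e + 3) (fun e => r e + 2) pad pad₀ e x e' x' y h h'
    · intro e x
      rw [hC]
      simp only [card_codes]
      apply Nat.pow_lt_pow_right (by norm_num)
      unfold hl
      rw [hpe]
      ring_nf
      omega
    · intro e x A hA
      rw [hpe]
      exact hr e x A hA
  choose Φ hΦ using hst
  refine not_null_of f Set.univ (by rw [measure_univ]; exact one_pos) Φ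
    {y : List Bool | ∃ e x, y ∈ C e x} ?_ d ?_ O ?_
  · intro B y hy
    exact (hΦ B).1 y fun e x h => hy ⟨e, x, h⟩
  · intro N
    exact hd N
  · intro B _
    apply hO
    rintro L ⟨V, ⟨M, hM⟩, q, hq, hL⟩
    obtain ⟨e, he⟩ := hg (M, ⟨q, hq⟩)
    obtain ⟨Q', Γ, i1, i2, M', hM'1, hM'2⟩ :=
      exists_decoder e (r e + e + 3) (r e + 2) (pad e) (pad₀ e)
    obtain ⟨k, m, M'', h1, h2⟩ := transport M'
    refine ⟨k, m, M'', h1 hM'1, fun x => ?_⟩
    rw [h2, hM'2, ← (hΦ B).2 e x, hL x]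
    simp only [hQ, he]
    constructor
    · rintro ⟨w, hw, hw2⟩
      exact ⟨w, hw, by rw [hM, hw2]⟩
    · rintro ⟨w, hw, hw2⟩
      rw [hM, Option.some.injEq] at hw2
      exact ⟨w, hw, hw2⟩

theorem resLba (f : ℕ → ℝ) :
    (∀ O : Set Oracle,
      (∀ A : Oracle, (∀ L, InNTime Lin A L → IsDLBA A L) → A ∈ O) →
      (∀ A ∈ O, ∀ L, IsP A L → IsLBA A L) →
      (Null f O ↔ ∀ ε : ℝ, 0 < ε → ∃ᶠ N : ℕ in atTop, f N ≤ (N : ℝ) ^ ε)) ∧
    (Null f {A : Oracle | ∀ L, IsDLBA A L ↔ InNTime Lin A L} ↔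
      ∀ ε : ℝ, 0 < ε → ∃ᶠ N : ℕ in atTop, f N ≤ (N : ℝ) ^ ε) := by
  have key : ∀ O : Set Oracle,
      (∀ A : Oracle, (∀ L, InNTime Lin A L → IsDLBA A L) → A ∈ O) →
      (∀ A ∈ O, ∀ L, IsP A L → IsLBA A L) →
      (Null f O ↔ ∀ ε : ℝ, 0 < ε → ∃ᶠ N : ℕ in atTop, f N ≤ (N : ℝ) ^ ε) := by
    intro O h1 h2
    constructor
    · intro hn
      by_contra hcon
      exact not_null_lba hcon O h1 hn
    · intro hf
      exact (null_lba hf).mono fun A hA => h2 A hA _ (testU_isP A)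
  refine ⟨key, key _ ?_ ?_⟩
  · intro A hA L
    exact ⟨fun h => h.inTime.isNTime, hA L⟩
  · intro A hA L hL
    obtain ⟨k, m, M, _, h⟩ := (hA L).2 hL.inNTime
    exact ⟨k, m, M, h⟩

end Pool.Agent.H622R2.Lba
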