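import Pool.Agent.H622R2.Lba.Base
import Pool.Agent.H620R2.GaugeX.X2

/-!
# Construction of an oracle which codes answers in parities (task PAR, helper92)
-/

namespace Pool.Agent.H622R2.Lba

open Pool.Agent.NPC Pool.Agent.H620R2.Gauge Pool.Agent.H622R2.Exp Finset H568R2

namespace PAR

/-- changing one answer changes the parity -/
theorem flip_odd (C : Finset (List Bool)) (y₀ : List Bool) (hy : y₀ ∈ C) (A : Oracle) :
    Odd (C.filter (fun y => (Function.update A y₀ (!A y₀)) y = true)).card ↔
      ¬ Odd (C.filter (fun y => A y = true)).card := by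
  have key : ∀ A : Oracle, (C.filter (fun y => A y = true)).card =
      ((C.erase y₀).filter (fun y => A y = true)).card + (if A y₀ = true then 1 else 0) := by
    intro A
    conv_lhs => rw [← insert_erase hy]
    rw [filter_insert]
    by_cases h : A y₀ = true
    · rw [if_pos h, if_pos h, card_insert_of_notMem]
      simp
    · rw [if_neg h, if_neg h, add_zero]
  have h1 : (C.erase y₀).filter (fun y => (Function.update A y₀ (!A y₀)) y = true) =
      (C.erase y₀).filter (fun y => A y = true) := by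
    apply filter_congr
    intro y hy'
    rw [Function.update_of_ne (ne_of_mem_erase hy')]
  rw [key A, key (Function.update A y₀ (!A y₀)), h1, Function.update_self]
  by_cases h : A y₀ = true
  · rw [if_pos h, if_neg (by simp [h]), add_zero, Nat.odd_add_one, not_not]
  · rw [if_neg h, if_pos (by simpa using h), add_zero, Nat.odd_add_one]

/-- the strings which are not changed any more -/
def Cs (C : ℕ → List Bool → Finset (List Bool)) (key : ℕ × List Bool → ℕ) (k : ℕ)
    (F : Finset (List Bool)) : Set (List Bool) :=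
  {y | (∀ t : ℕ × List Bool, y ∉ C t.1 t.2) ∨ y ∈ F ∨
    ∃ t : ℕ × List Bool, y ∈ C t.1 t.2 ∧ key t < k}

/-- specification of one step of the construction -/
def Spec (p : ℕ → Polynomial ℕ) (C : ℕ → List Bool → Finset (List Bool))
    (Q : ℕ → List Bool → Oracle → Prop) (key : ℕ × List Bool → ℕ)
    (k : ℕ) (s s' : Oracle × Finset (List Bool)) : Prop :=
  (∀ y ∈ Cs C key k s.2, s'.1 y = s.1 y) ∧ s.2 ⊆ s'.2 ∧
  ((∀ t, key t ≠ k) → s'.2 = s.2) ∧
  ∀ t : ℕ × List Bool, key t = k → s'.2.card ≤ s.2.card + 2 ^ (p t.1).eval t.2.length ∧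
    (s'.2.card < (C t.1 t.2).card →
    ∀ A : Oracle, (∀ y ∈ Cs C key (k + 1) s'.2, A y = s'.1 y) →
      (Q t.1 t.2 A ↔ Odd ((C t.1 t.2).filter (fun y => A y = true)).card))

open Classical in
theorem exists_fix (C F : Finset (List Bool)) (h : F.card < C.card) (A : Oracle) (b : Prop) :
    ∃ A₂ : Oracle, (∀ y, y ∉ C ∨ y ∈ F → A₂ y = A y) ∧
      (b ↔ Odd (C.filter (fun y => A₂ y = true)).card) := by
  by_cases hb : b ↔ Odd (C.filter (fun y => A y = true)).card
  · exact ⟨A, fun _ _ => rfl, hb⟩
  · obtain ⟨y₀, hy₀, hy₀F⟩ : ∃ y ∈ C, y ∉ F := by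
      by_contra hcon
      push Not at hcon
      have := card_le_card (show C ⊆ F from hcon)
      omega
    refine ⟨Function.update A y₀ (!A y₀), ?_, ?_⟩
    · intro y hy
      rw [Function.update_of_ne]
      rintro rfl
      rcases hy with h | h
      · exact h hy₀
      · exact hy₀F h
    · rw [flip_odd C y₀ hy₀ A]
      tauto

theorem exists_step (p : ℕ → Polynomial ℕ) (C : ℕ → List Bool → Finset (List Bool))
    (hdis : ∀ e x e' x' y, y ∈ C e x → y ∈ C e' x' → e = e' ∧ x = x')
    (Q : ℕ → List Bool → Oracle → Prop)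
    (hQ : ∀ (e : ℕ) (x : List Bool) (A : Oracle), Q e x A → ∃ U : Finset (List Bool),
      U.card ≤ 2 ^ (p e).eval x.length ∧
      ∀ A' : Oracle, (∀ u ∈ U, A' u = A u) → Q e x A')
    (key : ℕ × List Bool → ℕ) (hkey : Function.Injective key) (k : ℕ)
    (s : Oracle × Finset (List Bool)) : ∃ s', Spec p C Q key k s s' := by
  by_cases hk : ∃ t, key t = k
  · obtain ⟨t, ht⟩ := hk
    obtain ⟨A, F⟩ := s
    -- strings in `Cs k F` which are codes of `t` are frozen
    have hfr : ∀ y ∈ Cs C key k F, y ∉ C t.1 t.2 ∨ y ∈ F := by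
      intro y hy
      by_cases hc : y ∈ C t.1 t.2
      · rcases hy with h | h | ⟨t', h, h'⟩
        · exact absurd hc (h t)
        · exact Or.inr h
        · have h2 := hdis _ _ _ _ _ h hc
          have h3 : t' = t := Prod.ext h2.1 h2.2
          rw [h3] at h'
          omega
      · exact Or.inl hc
    have hCs : ∀ F', C t.1 t.2 ⊆ C t.1 t.2 → ∀ y ∈ C t.1 t.2, y ∈ Cs C key (k + 1) F' :=
      fun F' _ y hy => Or.inr (Or.inr ⟨t, hy, by omega⟩)
    by_cases hA : ∃ A' : Oracle, (∀ y ∈ Cs C key k F, A' y = A y) ∧ Q t.1 t.2 A'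
    · obtain ⟨A', hA1, hA2⟩ := hA
      obtain ⟨U, hU1, hU2⟩ := hQ _ _ _ hA2
      obtain ⟨A₂, hA₂, hpar⟩ : ∃ A₂ : Oracle, (∀ y, y ∉ C t.1 t.2 ∨ y ∈ F ∪ U → A₂ y = A' y) ∧
          ((F ∪ U).card < (C t.1 t.2).card →
            Odd ((C t.1 t.2).filter (fun y => A₂ y = true)).card) := by
        by_cases hc : (F ∪ U).card < (C t.1 t.2).card
        · obtain ⟨A₂, h1, h2⟩ := exists_fix (C t.1 t.2) (F ∪ U) hc A' True
          exact ⟨A₂, h1, fun _ => h2.1 trivial⟩
        · exact ⟨A', fun _ _ => rfl, fun h => absurd h hc⟩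
      refine ⟨(A₂, F ∪ U), ?_, subset_union_left, fun h => absurd ht (h t), ?_⟩
      · intro y hy
        show A₂ y = A y
        rw [hA₂ y, hA1 y hy]
        rcases hfr y hy with h | h
        · exact Or.inl h
        · exact Or.inr (mem_union_left _ h)
      · intro t' ht'
        have : t' = t := hkey (ht'.trans ht.symm)
        subst this
        refine ⟨(card_union_le _ _).trans (Nat.add_le_add_left hU1 _), ?_⟩
        intro hc A'' hA''
        have hQA : Q t'.1 t'.2 A'' := by
          apply hU2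
          intro u hu
          have h1 : A'' u = A₂ u := hA'' u (Or.inr (Or.inl (mem_union_right _ hu)))
          rw [h1]
          exact hA₂ u (Or.inr (mem_union_right _ hu))
        have hf : (C t'.1 t'.2).filter (fun y => A'' y = true) =
            (C t'.1 t'.2).filter (fun y => A₂ y = true) := by
          apply filter_congr
          intro y hy
          rw [hA'' y (hCs _ (Subset.refl _) y hy)]
        rw [hf]
        exact ⟨fun _ => hpar hc, fun _ => hQA⟩
    · obtain ⟨A₂, hA₂, hpar⟩ : ∃ A₂ : Oracle, (∀ y, y ∉ C t.1 t.2 ∨ y ∈ F → A₂ y = A y) ∧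
          (F.card < (C t.1 t.2).card →
            ¬ Odd ((C t.1 t.2).filter (fun y => A₂ y = true)).card) := by
        by_cases hc : F.card < (C t.1 t.2).card
        · obtain ⟨A₂, h1, h2⟩ := exists_fix (C t.1 t.2) F hc A False
          exact ⟨A₂, h1, fun _ h => h2.2 h⟩
        · exact ⟨A, fun _ _ => rfl, fun h => absurd h hc⟩
      refine ⟨(A₂, F), ?_, Subset.refl _, fun _ => rfl, ?_⟩
      · intro y hy
        exact hA₂ y (hfr y hy)
      · intro t' ht'
        have : t' = t := hkey (ht'.trans ht.symm)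
        subst this
        refine ⟨Nat.le_add_right _ _, ?_⟩
        intro hc A'' hA''
        have hQA : ¬ Q t'.1 t'.2 A'' := by
          intro hq
          apply hA
          refine ⟨A'', fun y hy => ?_, hq⟩
          have hy2 : y ∈ Cs C key (k + 1) F := by
            rcases hy with h | h | ⟨t2, h, h'⟩
            · exact Or.inl h
            · exact Or.inr (Or.inl h)
            · exact Or.inr (Or.inr ⟨t2, h, by omega⟩)
          have h1 : A'' y = A₂ y := hA'' y hy2
          rw [h1]
          exact hA₂ y (hfr y hy)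
        have hf : (C t'.1 t'.2).filter (fun y => A'' y = true) =
            (C t'.1 t'.2).filter (fun y => A₂ y = true) := by
          apply filter_congr
          intro y hy
          rw [hA'' y (hCs _ (Subset.refl _) y hy)]
        rw [hf]
        exact ⟨fun h => absurd h hQA, fun h => absurd h (hpar hc)⟩
  · refine ⟨s, fun y _ => rfl, Subset.refl _, fun _ => rfl, fun t ht => absurd ⟨t, ht⟩ hk⟩

theorem Cs_mono (C : ℕ → List Bool → Finset (List Bool)) (key : ℕ × List Bool → ℕ) {k k' : ℕ}
    {F F' : Finset (List Bool)} (hk : k ≤ k') (hF : F ⊆ F') :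
    Cs C key k F ⊆ Cs C key k' F' := by
  rintro y (h | h | ⟨t, h, h'⟩)
  · exact Or.inl h
  · exact Or.inr (Or.inl (hF h))
  · exact Or.inr (Or.inr ⟨t, h, by omega⟩)

end PAR

open PAR in
theorem exists_stagePar (p : ℕ → Polynomial ℕ) (C : ℕ → List Bool → Finset (List Bool))
    (hdis : ∀ e x e' x' y, y ∈ C e x → y ∈ C e' x' → e = e' ∧ x = x')
    (hcard : ∀ e x, 2 ^ hl p e x.length < (C e x).card)
    (Q : ℕ → List Bool → Oracle → Prop)
    (hQ : ∀ (e : ℕ) (x : List Bool) (A : Oracle), Q e x A → ∃ U : Finset (List Bool),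
      U.card ≤ 2 ^ (p e).eval x.length ∧
      ∀ A' : Oracle, (∀ u ∈ U, A' u = A u) → Q e x A') (B : Oracle) :
    ∃ A : Oracle, (∀ y, (∀ e x, y ∉ C e x) → A y = B y) ∧
      ∀ e x, (Q e x A ↔ Odd ((C e x).filter (fun y => A y = true)).card) := by
  classical
  obtain ⟨key, hkey, hsum⟩ := exists_key p
  have hstep := fun k s => exists_step p C hdis Q hQ key hkey k s
  choose nx hnx using hstep
  obtain ⟨st, hst0, hstS⟩ : ∃ st : ℕ → Oracle × Finset (List Bool), st 0 = (B, ∅) ∧
      ∀ k, st (k + 1) = nx k (st k) :=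
    ⟨fun k => Nat.rec (motive := fun _ => Oracle × Finset (List Bool)) (B, ∅) nx k, rfl,
      fun k => rfl⟩
  have hspec : ∀ k, Spec p C Q key k (st k) (st (k + 1)) := fun k => by
    rw [hstS]
    exact hnx k (st k)
  have hFm : ∀ k j, k ≤ j → (st k).2 ⊆ (st j).2 := by
    intro k j h
    induction j, h using Nat.le_induction with
    | base => exact Subset.refl _
    | succ j _ ih => exact ih.trans (hspec j).2.1
  have hAg : ∀ k j, k ≤ j → ∀ y ∈ Cs C key k (st k).2, (st j).1 y = (st k).1 y := by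
    intro k j h
    induction j, h using Nat.le_induction with
    | base => exact fun y _ => rfl
    | succ j hj ih =>
      intro y hy
      rw [← ih y hy]
      exact (hspec j).1 y (Cs_mono C key hj (hFm k j hj) hy)
  have hcardF : ∀ k, ∃ S : Finset (ℕ × List Bool), (∀ s ∈ S, key s < k) ∧
      (st k).2.card ≤ ∑ s ∈ S, 2 ^ (p s.1).eval s.2.length := by
    intro k
    induction k with
    | zero => exact ⟨∅, by simp, by simp [hst0]⟩
    | succ k ih =>
      obtain ⟨S, hS1, hS2⟩ := ih
      by_cases hk : ∃ t, key t = k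
      · obtain ⟨t, ht⟩ := hk
        have hnot : t ∉ S := fun h => by
          have := hS1 t h
          omega
        refine ⟨insert t S, ?_, ?_⟩
        · intro s hs
          rcases mem_insert.1 hs with rfl | h
          · omega
          · have := hS1 s h
            omega
        · rw [sum_insert hnot]
          have := ((hspec k).2.2.2 t ht).1
          omega
      · refine ⟨S, fun s hs => by have := hS1 s hs; omega, ?_⟩
        rw [(hspec k).2.2.1 fun t ht => hk ⟨t, ht⟩]
        exact hS2
  have huniq : ∀ (t t' : ℕ × List Bool) (y : List Bool), y ∈ C t.1 t.2 → y ∈ C t'.1 t'.2 →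
      t = t' := by
    intro t t' y h h'
    have h2 := hdis _ _ _ _ _ h h'
    exact Prod.ext h2.1 h2.2
  -- the limit oracle
  obtain ⟨A, hA1, hA2⟩ : ∃ A : Oracle,
      (∀ y, (∀ t : ℕ × List Bool, y ∉ C t.1 t.2) → A y = B y) ∧
      ∀ (t : ℕ × List Bool) y, y ∈ C t.1 t.2 → A y = (st (key t + 1)).1 y := by
    refine ⟨fun y => if h : ∃ t : ℕ × List Bool, y ∈ C t.1 t.2 then
      (st (key h.choose + 1)).1 y else B y, ?_, ?_⟩
    · intro y hy
      beta_reduce
      rw [dif_neg]
      rintro ⟨t, ht⟩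
      exact hy t ht
    · intro t y hty
      have h : ∃ t : ℕ × List Bool, y ∈ C t.1 t.2 := ⟨t, hty⟩
      beta_reduce
      rw [dif_pos h, huniq _ _ _ h.choose_spec hty]
  have hAk : ∀ k, ∀ y ∈ Cs C key k (st k).2, A y = (st k).1 y := by
    intro k y hy
    by_cases h : ∃ t : ℕ × List Bool, y ∈ C t.1 t.2
    · obtain ⟨t, ht⟩ := h
      rw [hA2 t y ht]
      have h1 := hAg (key t + 1) (max (key t + 1) k) (le_max_left _ _) y
        (Or.inr (Or.inr ⟨t, ht, Nat.lt_succ_self _⟩))
      have h2 := hAg k (max (key t + 1) k) (le_max_right _ _) y hy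
      rw [← h1, h2]
    · have h' : ∀ t : ℕ × List Bool, y ∉ C t.1 t.2 := fun t ht => h ⟨t, ht⟩
      rw [hA1 y h']
      have h2 := hAg 0 k (Nat.zero_le _) y (Or.inl h')
      rw [h2, hst0]
  refine ⟨A, fun y hy => hA1 y fun t => hy t.1 t.2, fun e x => ?_⟩
  obtain ⟨S, hS1, hS2⟩ := hcardF (key (e, x) + 1)
  have hF : (st (key (e, x) + 1)).2.card ≤ 2 ^ hl p e x.length :=
    hS2.trans (hsum (e, x) S fun s hs => Nat.lt_succ_iff.1 (hS1 s hs))
  exact ((hspec (key (e, x))).2.2.2 (e, x) rfl).2 (lt_of_le_of_lt hF (hcard e x)) A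
    (fun y hy => hAk (key (e, x) + 1) y hy)

end Pool.Agent.H622R2.Lba
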