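import Pool.Agent.H622R2.Lba.Base2
import Pool.Agent.H620R2.Gauge2.Null

/-!
# Exact statements of the tasks (never import this file in a finished file)
-/

namespace Pool.Agent.H622R2.Lba

open Pool.Agent.NPC Pool.Agent.H620R2.Gauge Pool.Agent.H622R2.Exp Finset H568R2 Pool.Agent.H676
open Filter (atTop)

/-! ### Task PAR -/

theorem exists_stagePar (p : ℕ → Polynomial ℕ) (C : ℕ → List Bool → Finset (List Bool))
    (hdis : ∀ e x e' x' y, y ∈ C e x → y ∈ C e' x' → e = e' ∧ x = x')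
    (hcard : ∀ e x, 2 ^ hl p e x.length < (C e x).card)
    (Q : ℕ → List Bool → Oracle → Prop)
    (hQ : ∀ (e : ℕ) (x : List Bool) (A : Oracle), Q e x A → ∃ U : Finset (List Bool),
      U.card ≤ 2 ^ (p e).eval x.length ∧
      ∀ A' : Oracle, (∀ u ∈ U, A' u = A u) → Q e x A') (B : Oracle) :
    ∃ A : Oracle, (∀ y, (∀ e x, y ∉ C e x) → A y = B y) ∧
      ∀ e x, (Q e x A ↔ Odd ((C e x).filter (fun y => A y = true)).card) := by
  sorry

/-! ### Task CDI -/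

theorem length_of_codes {e b₀ c pad pad₀ : ℕ} {x y : List Bool}
    (h : y ∈ codes e b₀ c pad pad₀ x) :
    y.length = e + 1 + b₀ + pad₀ + x.length * (1 + c + pad) := by
  sorry

theorem card_codes (e b₀ c pad pad₀ : ℕ) (x : List Bool) :
    (codes e b₀ c pad pad₀ x).card = 2 ^ (b₀ + c * x.length) := by
  sorry

theorem codes_disj (b₀ c pad pad₀ : ℕ → ℕ) (e : ℕ) (x : List Bool) (e' : ℕ) (x' : List Bool)
    (y : List Bool) (h : y ∈ codes e (b₀ e) (c e) (pad e) (pad₀ e) x)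
    (h' : y ∈ codes e' (b₀ e') (c e') (pad e') (pad₀ e') x') : e = e' ∧ x = x' := by
  sorry

/-! ### Task PAD (may use CDI) -/

open Classical in
theorem exists_pads {f : ℕ → ℝ}
    (hf : ¬ ∀ ε : ℝ, 0 < ε → ∃ᶠ N : ℕ in atTop, f N ≤ (N : ℝ) ^ ε) (b₀ c : ℕ → ℕ) :
    ∃ (pad pad₀ : ℕ → ℕ) (d : ℝ), ∀ N : ℕ,
      (((Finset.range N).filter (fun i => str i ∈
        {y : List Bool | ∃ e x, y ∈ codes e (b₀ e) (c e) (pad e) (pad₀ e) x})).card : ℝ) ≤
        f N + d := by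
  sorry

/-! ### Task TRN -/

theorem transport {Q Γ : Type} [Fintype Q] [Fintype Γ] (M : LBA Q Γ) :
    ∃ (k m : ℕ) (M' : LBA (Fin k) (Fin m)), (M.Det → M'.Det) ∧
      ∀ (A : Oracle) (x : List Bool), M'.Acc A x ↔ M.Acc A x := by
  sorry

/-! ### Task DEC -/

theorem exists_decoder (e b₀ c pad pad₀ : ℕ) :
    ∃ (Q Γ : Type) (_ : Fintype Q) (_ : Fintype Γ) (M : LBA Q Γ), M.Det ∧
      ∀ (A : Oracle) (x : List Bool), (M.Acc A x ↔
        Odd ((codes e b₀ c pad pad₀ x).filter (fun y => A y = true)).card) := by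
  sorry

/-! ### Task NEL -/

theorem ne_local (M : Alg) {q : Polynomial ℕ} (hq : q ∈ Lin) : ∃ r : ℕ,
    ∀ (x : List Bool) (A : Oracle),
      (∃ w : List Bool, w.length ≤ 2 ^ q.eval x.length ∧ M.out A (pairBits w x) = some [true]) →
      ∃ U : Finset (List Bool), U.card ≤ 2 ^ (r * (x.length + 1)) ∧
        ∀ A' : Oracle, (∀ u ∈ U, A' u = A u) →
          ∃ w : List Bool, w.length ≤ 2 ^ q.eval x.length ∧
            M.out A' (pairBits w x) = some [true] := by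
  sorry

/-! ### Task LLC -/

theorem acc_local {k m : ℕ} (M : LBA (Fin k) (Fin m)) : ∃ c : ℕ, ∀ (A A' : Oracle)
    (x : List Bool), (∀ y : List Bool, y.length ≤ c * (x.length + 1) → A y = A' y) →
    (M.Acc A x ↔ M.Acc A' x) := by
  sorry

/-! ### Task LEV -/

open Classical in
theorem evU_bound {Q Γ : Type} (M : LBA Q Γ) {K n N : ℕ}
    (hc : ∀ (A A' : Oracle) (x : List Bool), x.length = n →
      (∀ y : List Bool, y.length < K * (n + 1) → A y = A' y) →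
      (M.Acc A (List.replicate K true ++ false :: x) ↔
        M.Acc A' (List.replicate K true ++ false :: x)))
    (hN : 2 ^ (n + K * (n + 1) + 1) ≤ N) :
    Ex unif (fun v : Fin N → Bool => if EvU M K n N v then (1 : ℝ) else 0) ≤
      1 / 2 ^ 2 ^ n := by
  sorry

/-! ### Task LAS -/

theorem asyL {f : ℕ → ℝ} (hf : ∀ ε : ℝ, 0 < ε → ∃ᶠ N : ℕ in atTop, f N ≤ (N : ℝ) ^ ε) (K : ℕ)
    (δ : ℝ) (hδ : 0 < δ) (n₀ : ℕ) :
    ∃ n ≥ n₀, ∃ N, 2 ^ (n + K * (n + 1) + 1) ≤ N ∧ (1 / 2 ^ 2 ^ n : ℝ) * 2 ^ f N ≤ δ := by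
  sorry

/-! ### Task LNU (may use LLC, LEV, LAS) -/

theorem null_lba {f : ℕ → ℝ} (hf : ∀ ε : ℝ, 0 < ε → ∃ᶠ N : ℕ in atTop, f N ≤ (N : ℝ) ^ ε) :
    Null f {A : Oracle | IsLBA A (testU A)} := by
  sorry

/-! ### Task LTP -/

theorem testU_isP (A : Oracle) : IsP A (testU A) := by
  sorry

/-! ### Task PNE -/

theorem _root_.Pool.Agent.H620R2.Gauge.IsP.inNTime {A : Oracle} {L : Set (List Bool)}
    (h : IsP A L) : InNTime Lin A L := by
  sorry

/-! ### Task SIA -/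

theorem acc_bound {k m : ℕ} (M : LBA (Fin k) (Fin m)) (hM : M.Det) (A : Oracle)
    (x : List Bool) (h : M.Acc A x) :
    ∃ (t : ℕ) (c : ℕ → Cfg (Fin k) (Fin m)), t ≤ k * (x.length + 2) * m ^ x.length ∧
      c 0 = M.init x ∧ (∀ i < t, M.Next A (c i) (c (i + 1))) ∧ M.acc (c t).q = true := by
  sorry

/-! ### Task SIB (may use SIA) -/

theorem IsDLBA.inTime {A : Oracle} {L : Set (List Bool)} (h : IsDLBA A L) : InTime Lin A L := by
  sorry

end Pool.Agent.H622R2.Lba
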